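import Pool.Agent.K9h78.CC.Tight

/-!
# Dependence of continuous functions on separating families
-/

set_option autoImplicit false

namespace Pool.Agent.K9h78.CC

open Cardinal Set Topology
open Pool.Agent.Helper102.CorsonTools

variable {X : Type} [TopologicalSpace X]

theorem SepOn.mono' {K K' : Set X} {M M' : Set C(X, ℝ)} (h : SepOn K M) (hK : K' ⊆ K)
    (hM : M ⊆ M') : SepOn K' M' :=
  fun x hx y hy hxy => h x (hK hx) y (hK hy) fun f hf => hxy f (hM hf)

/-- a continuous function depends on countably many functions of a separating family -/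
theorem depends [CompactSpace X] {K : Set X} (hK : IsClosed K) {M : Set C(X, ℝ)}
    (hM : SepOn K M) (f : C(X, ℝ)) :
    ∃ A ⊆ M, A.Countable ∧ ∀ y ∈ K, ∀ z ∈ K, (∀ a ∈ A, a y = a z) → f y = f z := by
  classical
  let Q : ℕ → Set (X × X) := fun n => {p | p.1 ∈ K ∧ p.2 ∈ K ∧ 1 / ((n : ℝ) + 1) ≤ |f p.1 - f p.2|}
  have hQ : ∀ n, IsCompact (Q n) := by
    intro n
    refine IsClosed.isCompact ?_
    refine (hK.preimage continuous_fst).inter ((hK.preimage continuous_snd).inter ?_)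
    exact isClosed_le continuous_const
      (((f.continuous.comp continuous_fst).sub (f.continuous.comp continuous_snd)).abs)
  let U : M → Set (X × X) := fun a => {p | a.1 p.1 ≠ a.1 p.2}
  have hU : ∀ a, IsOpen (U a) := fun a =>
    isOpen_ne_fun (a.1.continuous.comp continuous_fst) (a.1.continuous.comp continuous_snd)
  have hcov : ∀ n, Q n ⊆ ⋃ a, U a := by
    rintro n ⟨y, z⟩ ⟨hy, hz, hn⟩
    by_contra hcon
    simp only [mem_iUnion, not_exists, U, mem_ofPred_eq, not_not] at hcon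
    have h1 : y = z := hM y hy z hz fun a ha => hcon ⟨a, ha⟩
    simp only at hn
    rw [h1, sub_self, abs_zero] at hn
    have h2 : (0 : ℝ) < 1 / ((n : ℝ) + 1) := Nat.one_div_pos_of_nat
    exact absurd hn (not_le.2 h2)
  choose t ht using fun n => (hQ n).elim_finite_subcover U hU (hcov n)
  refine ⟨⋃ n, (fun a : M => a.1) '' (t n : Set M), ?_, ?_, ?_⟩
  · refine iUnion_subset fun n => ?_
    rintro _ ⟨a, -, rfl⟩
    exact a.2
  · exact countable_iUnion fun n => ((t n).countable_toSet.image _)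
  · intro y hy z hz hyz
    by_contra hne
    obtain ⟨n, hn⟩ := exists_nat_one_div_lt (abs_pos.2 (sub_ne_zero.2 hne))
    have h1 : (y, z) ∈ Q n := ⟨hy, hz, hn.le⟩
    obtain ⟨a, ha, h2⟩ := mem_iUnion₂.1 (ht n h1)
    exact h2 (hyz a.1 (mem_iUnion.2 ⟨n, a, ha, rfl⟩))

variable {Z : Type}

/-- the density step -/
theorem dens_step [Nonempty Z] [CompactSpace X] (x : Z → X) (hx : Dense (range x)) (g : Z → C(X, ℝ))
    (s : List Z) : ∃ C : Set Z, C.Countable ∧ Dn univ (x '' C) {f | ∃ a ∈ s, f = g a} := by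
  classical
  obtain ⟨C, hCx, hC, hD⟩ := lemA (range x) {f | ∃ a ∈ s, f = g a}
  have hM : ({f | ∃ a ∈ s, f = g a} : Set C(X, ℝ)).Countable := by
    refine ((List.finite_toSet s).countable.image g).mono ?_
    rintro f ⟨a, ha, rfl⟩
    exact ⟨a, ha, rfl⟩
  have hC' : C.Countable := Cardinal.le_aleph0_iff_set_countable.1
    (hC.trans (max_le (Cardinal.le_aleph0_iff_set_countable.2 hM) le_rfl))
  choose! ix hix using fun c (hc : c ∈ C) => hCx hc
  refine ⟨ix '' C, hC'.image _, fun y _ => ?_⟩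
  obtain ⟨y', hy', hf⟩ := hD y (by rw [hx.closure_eq]; exact mem_univ y)
  refine ⟨y', closure_mono ?_ hy', hf⟩
  intro c hc
  exact ⟨ix c, ⟨c, hc, rfl⟩, hix c hc⟩

/-- the members of the family which do not vanish on the generating set suffice -/
theorem sepOn_of_corson {A : Set X} {F : Set C(X, ℝ)} (hs : SepOn (closure A) F) :
    SepOn (closure A) {f | f ∈ F ∧ ∃ b ∈ A, f b ≠ 0} := by
  intro y hy z hz hyz
  refine hs y hy z hz fun f hf => ?_
  by_cases h : ∃ b ∈ A, f b ≠ 0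
  · exact hyz f ⟨hf, h⟩
  · push Not at h
    rw [vanish_closure h y hy, vanish_closure h z hz]

theorem mk_biUnion_le_of {κ : Cardinal.{0}} (hκ : ℵ₀ ≤ κ) {α β : Type} {J : Set α} (hJ : #J ≤ κ)
    {I : α → Set β} (hI : ∀ b ∈ J, (I b).Countable) : #(⋃ b ∈ J, I b) ≤ κ := by
  rw [biUnion_eq_iUnion]
  refine (mk_iUnion_le _).trans ?_
  refine (mul_le_mul' hJ (ciSup_le' (a := ℵ₀) fun b => ?_)).trans (mul_aleph0_eq hκ).le
  exact Cardinal.le_aleph0_iff_set_countable.2 (hI b.1 b.2)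

/-- the separation step -/
theorem sep_step [Nonempty Z] [CompactSpace X] {κ : Cardinal.{0}} (hκ : ℵ₀ ≤ κ) {x : Z → X} {g : Z → C(X, ℝ)}
    (hg : SepOn univ (range g)) {J : Set Z} (hJ : #J ≤ κ) (hcor : CorsonOn (closure (x '' J))) :
    ∃ A : Set Z, #A ≤ κ ∧ SepOn (closure (x '' J)) (g '' A) := by
  classical
  obtain ⟨F, hF, hs⟩ := hcor
  have hdep : ∀ f : C(X, ℝ), ∃ I : Set Z, I.Countable ∧ ∀ y ∈ closure (x '' J),
      ∀ z ∈ closure (x '' J), (∀ a ∈ I, g a y = g a z) → f y = f z := by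
    intro f
    obtain ⟨A, hAM, hA, h1⟩ := depends (K := closure (x '' J)) isClosed_closure
      (SepOn.mono' hg (subset_univ _) subset_rfl) f
    choose! ix hix using fun c (hc : c ∈ A) => hAM hc
    refine ⟨ix '' A, hA.image _, fun y hy z hz hyz => h1 y hy z hz fun a ha => ?_⟩
    have h2 := hyz (ix a) ⟨a, ha, rfl⟩
    rwa [hix a ha] at h2
  choose I hI1 hI2 using hdep
  refine ⟨⋃ b ∈ J, ⋃ f ∈ {f | f ∈ F ∧ f (x b) ≠ 0}, I f, ?_, ?_⟩
  · refine mk_biUnion_le_of hκ hJ fun b hb => ?_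
    exact (hF (x b) (subset_closure ⟨b, hb, rfl⟩)).biUnion fun f _ => hI1 f
  · intro y hy z hz hyz
    refine sepOn_of_corson hs y hy z hz fun f hf => hI2 f y hy z hz fun a ha => ?_
    obtain ⟨hfF, -, ⟨b, hb, rfl⟩, hne⟩ := hf
    exact hyz (g a) ⟨a, mem_biUnion hb (mem_biUnion ⟨hfF, hne⟩ ha), rfl⟩

end Pool.Agent.K9h78.CC
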