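import Pool.Agent.K9h78.CC.Levels
import Pool.Agent.K9h78.CC.Depend

/-!
# The induction step: from small closures to the whole space, under the reflection statement
-/

set_option autoImplicit false

namespace Pool.Agent.K9h78.CC

open Cardinal Set Topology
open Pool.Agent.Helper102.CorsonTools
open Pool.Agent.W869.CC (CofOm Club isClub_iff_club)

section Bounds

variable {Z : Type} [LinearOrder Z]

theorem bound_countable {δ : Z} (h0 : ∃ ζ, ζ < δ) (h : ¬ CofOm δ) {C : Set Z} (hC : C.Countable)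
    (hCδ : ∀ c ∈ C, c < δ) : ∃ ζ < δ, ∀ c ∈ C, c ≤ ζ := by
  rcases C.eq_empty_or_nonempty with rfl | hne
  · obtain ⟨ζ, hζ⟩ := h0
    exact ⟨ζ, hζ, fun c hc => absurd hc (notMem_empty c)⟩
  · obtain ⟨f, rfl⟩ := hC.exists_eq_range hne
    by_contra hcon
    push Not at hcon
    refine h ⟨f, fun n => hCδ _ ⟨n, rfl⟩, fun ζ hζ => ?_⟩
    obtain ⟨c, ⟨n, rfl⟩, hn⟩ := hcon ζ hζ
    exact ⟨n, hn⟩

/-- in a closed set the limits are approximated by members -/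
theorem exists_mem_of_isSuccLimit [WellFoundedLT Z] {C : Set Z} (hC : IsClub C) (i : C)
    (hi : Order.IsSuccLimit i) {ζ : Z} (hζ : ζ < i.1) : ∃ j : C, j < i ∧ ζ < j.1 := by
  by_contra hcon
  push Not at hcon
  obtain ⟨j0, hj0⟩ : ∃ j0, j0 < i := by
    have h1 := hi.1
    rw [not_isMin_iff] at h1
    exact h1
  let t : Set Z := {a | a ∈ C ∧ a < i.1}
  have ht : t.Nonempty := ⟨j0.1, j0.2, hj0⟩
  have htζ : ζ ∈ upperBounds t := fun a ha => hcon ⟨a, ha.1⟩ ha.2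
  let m : Z := wellFounded_lt.min (upperBounds t) ⟨ζ, htζ⟩
  have hm : IsLUB t m := by
    refine ⟨wellFounded_lt.min_mem (upperBounds t) ⟨ζ, htζ⟩, fun b hb => ?_⟩
    exact not_lt.1 (wellFounded_lt.not_lt_min (upperBounds t) hb)
  have hmC : m ∈ C := hC.isLUB_mem (fun a ha => ha.1) ht hm
  have hmζ : m ≤ ζ := hm.2 htζ
  refine hi.2 ⟨m, hmC⟩ ⟨hmζ.trans_lt hζ, fun c hc hci => ?_⟩
  exact absurd (hm.1 (⟨c.2, hci⟩ : c.1 ∈ t)) (not_le.2 hc)

end Bounds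

theorem tight_index {X : Type} [TopologicalSpace X] [CompactSpace X] {Z : Type} [Nonempty Z]
    {x : Z → X} {J : Set Z} (h : CorsonOn (closure (x '' J))) {y : X}
    (hy : y ∈ closure (x '' J)) : ∃ C ⊆ J, C.Countable ∧ y ∈ closure (x '' C) := by
  obtain ⟨C, hCJ, hC, hyC⟩ := tight_of_corsonOn h hy
  choose! ix hix using fun c (hc : c ∈ C) => hCJ hc
  refine ⟨ix '' C, ?_, hC.image _, closure_mono ?_ hyC⟩
  · rintro _ ⟨c, hc, rfl⟩
    exact (hix c hc).1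
  · intro c hc
    exact ⟨ix c, ⟨c, hc, rfl⟩, (hix c hc).2⟩

theorem corson_of_chain {κ : Cardinal.{0}} (hκ : ℵ₀ ≤ κ) {X : Type} [TopologicalSpace X]
    [CompactSpace X] [T2Space X] (hct : CTight X) (x : ZZ κ → X) (g : ZZ κ → C(X, ℝ))
    (hx : Dense (range x)) (hg : SepOn univ (range g))
    (hcor : ∀ δ, CorsonOn (closure (x '' Iio δ)))
    (hR : ∀ (S : Set (ZZ κ)) (B : ZZ κ → ℕ → ZZ κ), IsStationary S →
      (∀ α ∈ S, ∀ i, B α i < α) → ∃ δ, ¬ Free B (S ∩ Iio δ)) :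
    CorsonOn (univ : Set X) := by
  classical
  have hne : Nonempty (ZZ κ) := ZZ.nonempty hκ
  -- closing off
  have h1 : ∀ s : List (ZZ κ), ∃ b, Dn univ (x '' Iio b) {f | ∃ a ∈ s, f = g a} := by
    intro s
    obtain ⟨C, hC, hD⟩ := dens_step x hx g s
    obtain ⟨b, hb⟩ := ZZ.exists_bound_countable hκ C hC
    refine ⟨b, fun y hy => ?_⟩
    obtain ⟨y', hy', hf⟩ := hD y hy
    exact ⟨y', closure_mono (image_mono fun c hc => hb c hc) hy', hf⟩
  have h2 : ∀ β, ∃ b, SepOn (closure (x '' Iio β)) (g '' Iio b) := by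
    intro β
    obtain ⟨A, hA, hs⟩ := sep_step hκ hg (ZZ.mk_Iio β) (hcor β)
    obtain ⟨b, hb⟩ := ZZ.exists_bound hκ A hA
    exact ⟨b, SepOn.mono' hs subset_rfl (image_mono fun c hc => hb c hc)⟩
  choose b₁ hb₁ using h1
  choose b₂ hb₂ using h2
  have h3 : ∀ s : List (ZZ κ), ∃ b, b₁ s < b ∧ ∀ a ∈ s, a < b ∧ b₂ a < b := by
    intro s
    obtain ⟨b, hb⟩ := ZZ.exists_bound_countable hκ ({b₁ s} ∪ ({a | a ∈ s} ∪ b₂ '' {a | a ∈ s}))
      ((countable_singleton _).union ((List.finite_toSet s).countable.union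
        ((List.finite_toSet s).countable.image _)))
    exact ⟨b, hb _ (Or.inl rfl), fun a ha =>
      ⟨hb _ (Or.inr (Or.inl ha)), hb _ (Or.inr (Or.inr ⟨a, ha, rfl⟩))⟩⟩
  choose F hF using h3
  obtain ⟨D, hDdef⟩ : ∃ D : Set (ZZ κ),
      D = {α | ∀ s : List (ZZ κ), (∀ a ∈ s, a < α) → F s < α} := ⟨_, rfl⟩
  have hD : IsClub D := by rw [hDdef]; exact ZZ.closure_points hκ F
  have hDF : ∀ α ∈ D, ∀ s : List (ZZ κ), (∀ a ∈ s, a < α) → F s < α := by
    intro α hα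
    rw [hDdef] at hα
    exact hα
  have hDl : ∀ α ∈ D, ∀ ζ < α, ∃ ζ', ζ < ζ' ∧ ζ' < α := fun α hα ζ hζ =>
    ⟨F [ζ], ((hF [ζ]).2 ζ (by simp)).1, hDF α hα [ζ] (by simpa using hζ)⟩
  have hD0 : ∀ α ∈ D, ∃ ζ, ζ < α := fun α hα => ⟨F [], hDF α hα [] (by simp)⟩
  have hD1 : ∀ α ∈ D, Dn univ (x '' Iio α) (g '' Iio α) := by
    intro α hα
    let ι := {s : List (ZZ κ) // ∀ a ∈ s, a < α}
    have hι : Nonempty ι := ⟨⟨[], by simp⟩⟩
    have h4 := Dn_iUnion (ι := ι) (Z := univ) (B := fun _ => x '' Iio α)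
      (M := fun s => {f | ∃ a ∈ s.1, f = g a}) (fun s s' => ⟨⟨s.1 ++ s'.1, ?_⟩, subset_rfl,
        subset_rfl, ?_, ?_⟩) (fun s y hy => ?_)
    · intro y hy
      obtain ⟨y', hy', hf⟩ := h4 y hy
      rw [iUnion_const] at hy'
      refine ⟨y', hy', ?_⟩
      rintro _ ⟨a, ha, rfl⟩
      exact hf (g a) (mem_iUnion.2 ⟨⟨[a], by simpa using ha⟩, a, by simp, rfl⟩)
    · intro a ha
      rcases List.mem_append.1 ha with h | h
      · exact s.2 a h
      · exact s'.2 a h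
    · rintro f ⟨a, ha, rfl⟩
      exact ⟨a, List.mem_append.2 (Or.inl ha), rfl⟩
    · rintro f ⟨a, ha, rfl⟩
      exact ⟨a, List.mem_append.2 (Or.inr ha), rfl⟩
    · obtain ⟨y', hy', hf⟩ := hb₁ s.1 y hy
      have h5 : b₁ s.1 < α := (hF s.1).1.trans (hDF α hα s.1 s.2)
      exact ⟨y', closure_mono (image_mono (Iio_subset_Iio h5.le)) hy', hf⟩
  have hD2 : ∀ α ∈ D, ∀ β < α, SepOn (closure (x '' Iio β)) (g '' Iio α) := by
    intro α hα β hβ
    refine SepOn.mono' (hb₂ β) subset_rfl (image_mono (Iio_subset_Iio ?_))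
    exact (((hF [β]).2 β (by simp)).2.trans (hDF α hα [β] (by simpa using hβ))).le
  have hD3 : ∀ α ∈ D, ¬ CofOm α → ∀ y ∈ closure (x '' Iio α), ∃ β < α,
      y ∈ closure (x '' Iio β) := by
    intro α hα hc y hy
    obtain ⟨C, hCα, hC, hyC⟩ := tight_index (hcor α) hy
    obtain ⟨ζ, hζ, h4⟩ := bound_countable (hD0 α hα) hc hC hCα
    obtain ⟨ζ', h5, h6⟩ := hDl α hα ζ hζ
    exact ⟨ζ', h6, closure_mono (image_mono fun c hc => (h4 c hc).trans_lt h5) hyC⟩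
  have hD3' : ∀ α ∈ D, ¬ CofOm α → SepOn (closure (x '' Iio α)) (g '' Iio α) := by
    intro α hα hc y hy z hz hyz
    obtain ⟨β, hβ, h4⟩ := hD3 α hα hc y hy
    obtain ⟨β', hβ', h5⟩ := hD3 α hα hc z hz
    refine hD2 α hα (max β β') (max_lt hβ hβ') y ?_ z ?_ hyz
    · exact closure_mono (image_mono (Iio_subset_Iio (le_max_left _ _))) h4
    · exact closure_mono (image_mono (Iio_subset_Iio (le_max_right _ _))) h5
  have hDc : ∀ δ, (∃ ζ, ζ < δ) → (∀ ζ < δ, ∃ ζ', ζ < ζ' ∧ ζ' < δ) →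
      (∀ ζ < δ, ∃ ε ∈ D, ζ ≤ ε ∧ ε < δ) → δ ∈ D := by
    intro δ h0 hl hu
    refine ((isClub_iff_club (ZZ.exists_gt hκ) D).1 hD).2 δ h0 fun ζ hζ => ?_
    obtain ⟨ζ', h4, h5⟩ := hl ζ hζ
    obtain ⟨ε, h6, h7, h8⟩ := hu ζ' h5
    exact ⟨ε, h4.trans_le h7, h8, h6⟩
  by_cases hE : IsStationary {α | α ∈ D ∧ ¬ SepOn (closure (x '' Iio α)) (g '' Iio α)}
  · exfalso
    have h4 : ∀ α, ∃ (B : ℕ → ZZ κ) (y z : X),
        α ∈ {α | α ∈ D ∧ ¬ SepOn (closure (x '' Iio α)) (g '' Iio α)} →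
        (∀ i, B i < α) ∧ y ≠ z ∧ y ∈ closure (x '' range B) ∧ z ∈ closure (x '' range B) ∧
          ∀ a < α, g a y = g a z := by
      intro α
      by_cases hα : α ∈ {α | α ∈ D ∧ ¬ SepOn (closure (x '' Iio α)) (g '' Iio α)}
      · have h5 := hα.2
        unfold SepOn at h5
        push Not at h5
        obtain ⟨y, hy, z, hz, hyz, hne⟩ := h5
        obtain ⟨C, hCα, hC, hyC⟩ := tight_index (hcor α) hy
        obtain ⟨C', hCα', hC', hzC⟩ := tight_index (hcor α) hz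
        have h6 : (C ∪ C').Nonempty := by
          rw [nonempty_iff_ne_empty]
          intro h7
          rw [union_empty_iff] at h7
          rw [h7.1, image_empty, closure_empty] at hyC
          exact hyC
        obtain ⟨B, hB⟩ := (hC.union hC').exists_eq_range h6
        refine ⟨B, y, z, fun _ => ⟨fun i => ?_, hne, ?_, ?_, fun a ha => hyz _ ⟨a, ha, rfl⟩⟩⟩
        · have h7 : B i ∈ C ∪ C' := by rw [hB]; exact ⟨i, rfl⟩
          rcases h7 with h7 | h7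
          · exact hCα h7
          · exact hCα' h7
        · rw [← hB]; exact closure_mono (image_mono subset_union_left) hyC
        · rw [← hB]; exact closure_mono (image_mono subset_union_right) hzC
      · obtain ⟨y0⟩ : Nonempty X := ⟨x (Classical.arbitrary _)⟩
        exact ⟨fun _ => α, y0, y0, fun h => absurd h hα⟩
    choose B y z hB using h4
    obtain ⟨δ₀, hδ₀⟩ := hR _ B hE fun α hα => (hB α hα).1
    refine hδ₀ (free_induction (fun α hα => (hB α hα).1) (fun δ hl hc hu h0 => ?_) δ₀)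
    have hδD : δ ∈ D := hDc δ h0 hl fun ζ hζ => by
      obtain ⟨ε, hε, h5, h6⟩ := hu ζ hζ
      exact ⟨ε, hε.1, h5, h6⟩
    have hsep := hD3' δ hδD hc
    obtain ⟨F', hF'1, hF'2⟩ := hcor δ
    have hdep : ∀ f : C(X, ℝ), ∃ I : Set (ZZ κ), I.Countable ∧ (∀ a ∈ I, a < δ) ∧
        ∀ y ∈ closure (x '' Iio δ), ∀ z ∈ closure (x '' Iio δ),
          (∀ a ∈ I, g a y = g a z) → f y = f z := by
      intro f
      obtain ⟨A, hAM, hA, h5⟩ := depends (K := closure (x '' Iio δ)) isClosed_closure hsep f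
      choose! ix hix using fun c (hc : c ∈ A) => hAM hc
      refine ⟨ix '' A, hA.image _, ?_, fun y hy z hz hyz => h5 y hy z hz fun a ha => ?_⟩
      · rintro _ ⟨a, ha, rfl⟩
        exact (hix a ha).1
      · have h6 := hyz (ix a) ⟨a, ha, rfl⟩
        rwa [(hix a ha).2] at h6
    choose I hI1 hI2 hI3 using hdep
    have h5 : ∀ b : ZZ κ, ∃ c : ZZ κ, b < δ → c < δ ∧
        ∀ f ∈ F', f (x b) ≠ 0 → ∀ a ∈ I f, a < c := by
      intro b
      by_cases hb : b < δ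
      · have hcount : (⋃ f ∈ {f | f ∈ F' ∧ f (x b) ≠ 0}, I f).Countable :=
          (hF'1 (x b) (subset_closure ⟨b, hb, rfl⟩)).biUnion fun f _ => hI1 f
        obtain ⟨ζ, hζ, h6⟩ := bound_countable h0 hc hcount (fun c hc => by
          obtain ⟨f, -, hf⟩ := mem_iUnion₂.1 hc
          exact hI2 f c hf)
        obtain ⟨ζ', h7, h8⟩ := hl ζ hζ
        exact ⟨ζ', fun _ => ⟨h8, fun f hf hne a ha =>
          (h6 a (mem_biUnion (show f ∈ {f | f ∈ F' ∧ f (x b) ≠ 0} from ⟨hf, hne⟩) ha)).trans_lt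
            h7⟩⟩
      · exact ⟨b, fun h => absurd h hb⟩
    choose h hh using h5
    refine ⟨h, fun b hb => (hh b hb).1, fun α hα hαδ => ?_⟩
    by_contra hcon
    push Not at hcon
    obtain ⟨h6, hne, hy, hz, heq⟩ := hB α hα
    have hsub : closure (x '' range (B α)) ⊆ closure (x '' Iio δ) :=
      closure_mono (image_mono (range_subset_iff.2 fun i => (h6 i).trans hαδ))
    apply hne
    refine hF'2 _ (hsub hy) _ (hsub hz) fun f hf => ?_
    by_cases hv : ∃ i, f (x (B α i)) ≠ 0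
    · obtain ⟨i, hi⟩ := hv
      refine hI3 f _ (hsub hy) _ (hsub hz) fun a ha => heq a ?_
      exact ((hh _ ((h6 i).trans hαδ)).2 f hf hi a ha).trans_le (hcon i)
    · push Not at hv
      have hv' : ∀ c ∈ x '' range (B α), f c = 0 := by
        rintro _ ⟨_, ⟨i, rfl⟩, rfl⟩
        exact hv i
      rw [vanish_closure hv' _ hy, vanish_closure hv' _ hz]
  · rw [not_isStationary_iff] at hE
    obtain ⟨t, ht, hdis⟩ := hE
    have hC : IsClub (t ∩ D) := ht.inter (ZZ.cof_ne hκ) hD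
    have hlim : ∀ i : ↥(t ∩ D), Order.IsSuccLimit i → ∀ ζ < i.1, ∃ j < i, ζ < j.1 :=
      fun i hi ζ hζ => by
        obtain ⟨j, h4, h5⟩ := exists_mem_of_isSuccLimit hC i hi hζ
        exact ⟨j, h4, h5⟩
    have hcof : ∀ ζ : ZZ κ, ∃ i : ↥(t ∩ D), ζ < i.1 := by
      intro ζ
      obtain ⟨ζ', hζ'⟩ := ZZ.exists_gt hκ ζ
      obtain ⟨i, hi, hle⟩ := hC.isCofinal ζ'
      exact ⟨⟨i, hi⟩, hζ'.trans_le hle⟩
    refine chain_lemma hct (ι := ↥(t ∩ D)) (fun i => x '' Iio i.1) (fun i => g '' Iio i.1)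
      ?_ ?_ ?_ ?_ ?_ ?_ ?_ (fun i => hcor i.1)
    · exact fun i j hij => image_mono (Iio_subset_Iio hij)
    · exact fun i j hij => image_mono (Iio_subset_Iio hij)
    · intro i
      refine ⟨hD1 i.1 i.2.2, ?_⟩
      by_contra hcon
      exact Set.disjoint_left.1 hdis ⟨i.2.2, hcon⟩ i.2.1
    · rintro i hi _ ⟨ζ, hζ, rfl⟩
      obtain ⟨j, hj, h4⟩ := hlim i hi ζ hζ
      exact ⟨j, hj, ζ, h4, rfl⟩
    · rintro i hi _ ⟨ζ, hζ, rfl⟩
      obtain ⟨j, hj, h4⟩ := hlim i hi ζ hζ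
      exact ⟨j, hj, ζ, h4, rfl⟩
    · refine hx.mono ?_
      rintro _ ⟨ζ, rfl⟩
      obtain ⟨i, hi⟩ := hcof ζ
      exact mem_iUnion.2 ⟨i, ζ, hi, rfl⟩
    · refine SepOn.mono' hg subset_rfl ?_
      rintro _ ⟨ζ, rfl⟩
      obtain ⟨i, hi⟩ := hcof ζ
      exact mem_iUnion.2 ⟨i, ζ, hi, rfl⟩

end Pool.Agent.K9h78.CC
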