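import Pool.Agent.K9h78.CC.Ladder

/-!
# Corson compact spaces
-/

set_option autoImplicit false

namespace Pool.Agent.K9h78.CC

open Cardinal Set Topology

/-- `X` embeds in a `Σ`-product of real lines (for a compact space: `X` is Corson compact) -/
def Corson (X : Type) [TopologicalSpace X] : Prop :=
  ∃ (Γ : Type) (f : X → (Γ → ℝ)), IsEmbedding f ∧ ∀ x, (Function.support (f x)).Countable

/-- the closures of the subsets of size at most `𝔠` are Corson compact -/
def SmallClosuresCorson (X : Type) [TopologicalSpace X] : Prop :=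
  ∀ A : Set X, #A ≤ 𝔠 → Corson (closure A)

theorem counterexample_of_not_reflectsAt {κ : Cardinal.{0}} (hκ : 𝔠 ≤ κ) (h : ¬ ReflectsAt κ) :
    ∃ (X : Type) (_ : TopologicalSpace X) (_ : CompactSpace X) (_ : T2Space X),
      #X ≤ Order.succ κ ∧ SmallClosuresCorson X ∧ ¬ Corson X := by
  unfold ReflectsAt at h
  push Not at h
  obtain ⟨S, B, h1, h2, h3⟩ := h
  exact counterexample hκ h1 h2 h3

end Pool.Agent.K9h78.CC
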