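import Pool.Agent.K9h78.CC.Free
import Pool.Agent.W869.CC.Stat

/-!
# The successor cardinals
-/

set_option autoImplicit false

namespace Pool.Agent.K9h78.CC

open Cardinal Set Topology Filter
open Pool.Agent.W869.CC (CofOm IsLim ClubIn NonRef Nonreflecting)

/-- the initial ordinal of the successor cardinal of `κ`, as a well-ordered set -/
abbrev ZZ (κ : Cardinal.{0}) : Type := (Order.succ κ).ord.ToType

namespace ZZ

variable {κ : Cardinal.{0}}

theorem reg (hκ : ℵ₀ ≤ κ) : (Order.succ κ).IsRegular := Cardinal.isRegular_succ hκ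

theorem mk : #(ZZ κ) = Order.succ κ := by rw [mk_toType, card_ord]

theorem exists_gt (hκ : ℵ₀ ≤ κ) (z : ZZ κ) : ∃ z', z < z' :=
  Pool.Agent.W869.CC.exists_gt (reg hκ) z

theorem exists_bound (hκ : ℵ₀ ≤ κ) (s : Set (ZZ κ)) (hs : #s ≤ κ) : ∃ b, ∀ a ∈ s, a < b :=
  Pool.Agent.W869.CC.exists_bound (reg hκ) s (hs.trans_lt (Order.lt_succ _))

theorem exists_bound_countable (hκ : ℵ₀ ≤ κ) (s : Set (ZZ κ)) (hs : s.Countable) :
    ∃ b, ∀ a ∈ s, a < b :=
  exists_bound hκ s ((le_aleph0_iff_set_countable.2 hs).trans hκ)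

theorem mk_Iio (z : ZZ κ) : #(Set.Iio z) ≤ κ :=
  Order.lt_succ_iff.1 (Pool.Agent.W869.CC.card_Iio_lt z)

theorem nonempty (hκ : ℵ₀ ≤ κ) : Nonempty (ZZ κ) := by
  rw [← mk_ne_zero_iff, mk]
  exact (aleph0_pos.trans_le (reg hκ).aleph0_le).ne'

theorem closure_points (hκ : ℵ₀ ≤ κ) (F : List (ZZ κ) → ZZ κ) :
    IsClub {α : ZZ κ | ∀ s : List (ZZ κ), (∀ x ∈ s, x < α) → F s < α} := by
  refine Pool.Agent.W869.CC.isClub_closure (exists_gt hκ) (fun f => ?_)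
    (Pool.Agent.W869.CC.list_bound (reg hκ) (hκ.trans_lt (Order.lt_succ _))) F
  obtain ⟨b, hb⟩ := exists_bound_countable hκ (Set.range f) (countable_range f)
  exact ⟨b, fun n => (hb _ ⟨n, rfl⟩).le⟩

theorem cof_ne (hκ : ℵ₀ ≤ κ) : Order.cof (ZZ κ) ≠ ℵ₀ := by
  intro h
  obtain ⟨s, hs, hs'⟩ := Order.exists_cof_eq (ZZ κ)
  rw [h] at hs'
  obtain ⟨b, hb⟩ := exists_bound_countable hκ s (le_aleph0_iff_set_countable.1 hs'.le)
  obtain ⟨e, he, hle⟩ := hs b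
  exact absurd (hb e he) (not_lt.2 hle)

/-- all small subfamilies are free if the initial ones are -/
theorem free_small (hκ : ℵ₀ ≤ κ) {E : Set (ZZ κ)} {B : ZZ κ → ℕ → ZZ κ}
    (h : ∀ δ, Free B (E ∩ Iio δ)) : ∀ J ⊆ E, #J ≤ κ → Free B J := by
  intro J hJ hJc
  obtain ⟨b, hb⟩ := exists_bound hκ J hJc
  refine Free.mono ?_ (h b)
  intro α hα
  exact ⟨hJ hα, hb α hα⟩

end ZZ

/-- The reflection statement for `κ⁺`: if `S` is a stationary subset of `κ⁺` and to each `α ∈ S` is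
attached a sequence `B α` of ordinals below `α`, then for some `J ⊆ S` of size at most `𝔠` the
family of the sequences `B α`, `α ∈ J`, is not free. -/
def ReflectsAt (κ : Cardinal.{0}) : Prop :=
  ∀ (S : Set (ZZ κ)) (B : ZZ κ → ℕ → ZZ κ), IsStationary S → (∀ α ∈ S, ∀ i, B α i < α) →
    ∃ J ⊆ S, #J ≤ 𝔠 ∧ ¬ Free B J

end Pool.Agent.K9h78.CC
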