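import Pool.Agent.K9h78.CC.NotCorson
import Pool.Agent.K9h78.CC.Levels

/-!
# A compact space of size `κ⁺` which is not a Corson compact space
-/

set_option autoImplicit false

namespace Pool.Agent.K9h78.CC

open Cardinal Set Topology Filter

/-- each sequence occurs only countably many times -/
theorem fib_countable {Z : Type} {S : Set Z} {B : Z → ℕ → Z}
    (hfree : ∀ J ⊆ S, #J ≤ 𝔠 → Free B J) (φ : ℕ → Z) : {α ∈ S | B α = φ}.Countable := by
  by_contra h
  have h1 : ℵ₁ ≤ #{α ∈ S | B α = φ} := by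
    rw [← succ_aleph0, Order.succ_le_iff]
    by_contra h2
    exact h (le_aleph0_iff_set_countable.1 (not_lt.1 h2))
  obtain ⟨J, hJ, hJc⟩ := le_mk_iff_exists_subset.1 h1
  obtain ⟨N, hN⟩ := hfree J (fun x hx => (hJ hx).1) (hJc.le.trans aleph_one_le_continuum)
  classical
  have h2 : J ⊆ ⋃ n : ℕ, {α ∈ J | ∀ i < N α, B α i ∈ (Finset.range n).image φ} := by
    intro α hα
    refine Set.mem_iUnion.2 ⟨N α, hα, fun i hi => ?_⟩
    rw [(hJ hα).2]
    exact Finset.mem_image_of_mem _ (Finset.mem_range.2 hi)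
  have h3 : J.Countable := (Set.countable_iUnion fun n => hN _).mono h2
  rw [← le_aleph0_iff_set_countable, hJc, ← succ_aleph0] at h3
  exact absurd h3 (not_le.2 (Order.lt_succ _))

theorem mk_biUnion_le_of' {κ : Cardinal.{0}} (hκ : ℵ₀ ≤ κ) {α β : Type} {J : Set α} (hJ : #J ≤ κ)
    {I : α → Set β} (hI : ∀ b ∈ J, (I b).Countable) : #(⋃ b ∈ J, I b) ≤ κ := by
  rw [biUnion_eq_iUnion]
  refine (mk_iUnion_le _).trans ?_
  refine (mul_le_mul' hJ (ciSup_le' (a := ℵ₀) fun b => ?_)).trans (mul_aleph0_eq hκ).le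
  exact Cardinal.le_aleph0_iff_set_countable.2 (hI b.1 b.2)

/-- **The space.** Let `κ ≥ 𝔠`. If `S` is a stationary subset of `κ⁺`, and to each `α ∈ S` is
attached a sequence of ordinals below `α` such that each subfamily of size at most `𝔠` is free, then
some compact Hausdorff space of size at most `κ⁺` is not a Corson compact space, but the closures of
all its subsets of size at most `𝔠` are. -/
theorem counterexample {κ : Cardinal.{0}} (hκ : 𝔠 ≤ κ) {S : Set (ZZ κ)} {B : ZZ κ → ℕ → ZZ κ}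
    (hstat : IsStationary S) (hlt : ∀ α ∈ S, ∀ i, B α i < α)
    (hfree : ∀ J ⊆ S, #J ≤ 𝔠 → Free B J) :
    ∃ (X : Type) (_ : TopologicalSpace X) (_ : CompactSpace X) (_ : T2Space X),
      #X ≤ Order.succ κ ∧
      (∀ A : Set X, #A ≤ 𝔠 → ∃ (Γ : Type) (f : ↥(closure A) → (Γ → ℝ)),
        IsEmbedding f ∧ ∀ x, (Function.support (f x)).Countable) ∧
      ¬ ∃ (Γ : Type) (f : X → (Γ → ℝ)), IsEmbedding f ∧
        ∀ x, (Function.support (f x)).Countable := by
  have hκ0 : ℵ₀ ≤ κ := aleph0_le_continuum.trans hκ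
  have hfib := fib_countable hfree
  have hKK : CompactSpace (KK S B) := isCompact_iff_compactSpace.1 isClosed_KK.isCompact
  refine ⟨KK S B, inferInstance, hKK, inferInstance, ?_, fun A hA => ?_, ?_⟩
  · have h1 : KK S B ⊆ (iso S B '' univ ∪ lim S B '' univ) ∪ {inf} := by
      rintro x (⟨s, rfl⟩ | ⟨α, -, rfl⟩ | rfl)
      · exact Or.inl (Or.inl ⟨s, trivial, rfl⟩)
      · exact Or.inl (Or.inr ⟨α, trivial, rfl⟩)
      · exact Or.inr rfl
    have hinf : ℵ₀ ≤ Order.succ κ := (ZZ.reg hκ0).aleph0_le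
    have hlist : #(List (ZZ κ)) ≤ Order.succ κ := by
      refine (mk_list_le_max (ZZ κ)).trans ?_
      rw [ZZ.mk]
      exact max_le hinf le_rfl
    refine (mk_le_mk_of_subset h1).trans ((mk_union_le _ _).trans ?_)
    refine add_le_of_le hinf ((mk_union_le _ _).trans (add_le_of_le hinf ?_ ?_)) ?_
    · refine mk_image_le.trans ?_
      rw [mk_univ]
      exact hlist
    · refine mk_image_le.trans ?_
      rw [mk_univ, ZZ.mk]
    · rw [mk_singleton]
      exact one_le_aleph0.trans hinf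
  · -- the ordinals involved in the points of `A`
    have hpt : ∀ x : KK S B, ∃ D : Set (ZZ κ), D.Countable ∧ x ∈ XB S B D := by
      intro x
      rcases x.2 with ⟨s, hs⟩ | ⟨α, hα, hs⟩ | hs
      · exact ⟨{y | y ∈ s}, (List.finite_toSet s).countable, (iso_mem_XB x hs).2 fun y hy => hy⟩
      · exact ⟨range (B α), countable_range _, (lim_mem_XB hα x hs).2 fun i => ⟨i, rfl⟩⟩
      · exact ⟨∅, countable_empty, inf_mem_XB x hs⟩
    choose d hd1 hd2 using hpt
    obtain ⟨D, hDdef⟩ : ∃ D : Set (ZZ κ), D = ⋃ x ∈ A, d x := ⟨_, rfl⟩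
    have hD : #D ≤ 𝔠 := by
      rw [hDdef]
      exact mk_biUnion_le_of' aleph0_le_continuum hA fun x _ => hd1 x
    have hAδ : A ⊆ XB S B D := fun x hx => XB_mono (by
      rw [hDdef]; exact subset_biUnion_of_mem (u := fun x => d x) hx) (hd2 x)
    refine small_closure hfib (hfree _ (fun α hα => hα.1) ?_) A hAδ
    -- the number of the sequences in `D`
    let F : ↥{α ∈ S | ∀ i, B α i ∈ D} → (ℕ → D) := fun α i => ⟨B α.1 i, α.2.2 i⟩
    have h1 : #(↥{α ∈ S | ∀ i, B α i ∈ D}) ≤ #(ℕ → D) * ℵ₀ := by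
      refine mk_le_mk_mul_of_mk_preimage_le F fun φ => ?_
      rw [le_aleph0_iff_set_countable]
      have h2 : (Subtype.val '' (F ⁻¹' {φ})).Countable := by
        refine (hfib fun i => (φ i).1).mono ?_
        rintro _ ⟨α, hα, rfl⟩
        refine ⟨α.2.1, ?_⟩
        have h3 : F α = φ := hα
        funext i
        rw [← h3]
      exact Set.countable_of_injective_of_countable_image (Subtype.val_injective.injOn) h2
    refine h1.trans ?_
    have h2 : #(ℕ → D) ≤ 𝔠 := by
      rw [← power_def, mk_nat]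
      calc #D ^ ℵ₀ ≤ 𝔠 ^ ℵ₀ := power_le_power_right hD
        _ = 𝔠 := continuum_power_aleph0
    calc #(ℕ → D) * ℵ₀ ≤ 𝔠 * 𝔠 := mul_le_mul' h2 aleph0_le_continuum
      _ = 𝔠 := continuum_mul_self
  · refine not_corson (fun F => ?_) hlt (fun D hD => ?_) hfib
    · obtain ⟨α, hα, hα'⟩ := hstat (ZZ.closure_points hκ0 F)
      exact ⟨α, hα, hα'⟩
    · obtain ⟨b, hb⟩ := ZZ.exists_bound_countable hκ0 D hD
      exact ⟨b, fun x hx => (hb x hx).le⟩

end Pool.Agent.K9h78.CC
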