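import Pool.Agent.K9h78.CC.Step

/-!
# The equivalence below the first singular cardinal above the continuum
-/

set_option autoImplicit false

namespace Pool.Agent.K9h78.CC

open Cardinal Set Topology
open Pool.Agent.Helper102.CorsonTools

/-- Every compact Hausdorff space of size at most `κ` is Corson compact, if the closures of its
subsets of size at most `𝔠` are. -/
def SizeUpTo (κ : Cardinal.{0}) : Prop :=
  ∀ (X : Type) [TopologicalSpace X] [CompactSpace X] [T2Space X],
    #X ≤ κ → SmallClosuresCorson X → Corson X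

theorem UpTo.sizeUpTo {κ : Cardinal.{0}} (h : UpTo κ) : SizeUpTo κ := by
  intro X _ _ _ hX hs
  exact h X univ dense_univ (by rw [mk_univ]; exact hX) hs

theorem upTo_continuum : UpTo 𝔠 := by
  intro X _ _ _ A hA hA' hX
  have h1 := hX A hA'
  have h2 : ∀ x : X, x ∈ closure A := fun x => hA x
  exact h1.of_embedding (i := fun x => (⟨x, h2 x⟩ : closure A)) (IsEmbedding.id.codRestrict _ h2)

theorem continuum_le_iterate (n : ℕ) : (𝔠 : Cardinal.{0}) ≤ Order.succ^[n] 𝔠 := by
  induction n with
  | zero => exact le_rfl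
  | succ n ih =>
    rw [Function.iterate_succ_apply']
    exact ih.trans (Order.le_succ _)

theorem iterate_mono {k n : ℕ} (h : k ≤ n) :
    (Order.succ^[k] 𝔠 : Cardinal.{0}) ≤ Order.succ^[n] 𝔠 := by
  induction n, h using Nat.le_induction with
  | base => exact le_rfl
  | succ n _ ih =>
    rw [Function.iterate_succ_apply']
    exact ih.trans (Order.le_succ _)

theorem upTo_of_reflects {n : ℕ} (h : ∀ k < n, ReflectsAt (Order.succ^[k] 𝔠)) :
    UpTo (Order.succ^[n] 𝔠) := by
  induction n with
  | zero => exact upTo_continuum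
  | succ n ih =>
    rw [Function.iterate_succ_apply']
    exact upTo_succ (continuum_le_iterate n) (ih fun k hk => h k (hk.trans (Nat.lt_succ_self n)))
      (h n (Nat.lt_succ_self n))

theorem reflects_of_sizeUpTo {n : ℕ} (h : SizeUpTo (Order.succ^[n] 𝔠)) :
    ∀ k < n, ReflectsAt (Order.succ^[k] 𝔠) := by
  intro k hk
  by_contra hR
  obtain ⟨X, h1, h2, h3, h4, h5, h6⟩ :=
    counterexample_of_not_reflectsAt (continuum_le_iterate k) hR
  refine h6 (h X (h4.trans ?_) h5)
  rw [← Function.iterate_succ_apply' Order.succ k]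
  exact iterate_mono hk

theorem reflects_iff_sizeUpTo (n : ℕ) :
    (∀ k < n, ReflectsAt (Order.succ^[k] 𝔠)) ↔ SizeUpTo (Order.succ^[n] 𝔠) :=
  ⟨fun h => (upTo_of_reflects h).sizeUpTo, reflects_of_sizeUpTo⟩

theorem reflects_iff_upTo (n : ℕ) :
    (∀ k < n, ReflectsAt (Order.succ^[k] 𝔠)) ↔ UpTo (Order.succ^[n] 𝔠) :=
  ⟨upTo_of_reflects, fun h => reflects_of_sizeUpTo h.sizeUpTo⟩

end Pool.Agent.K9h78.CC
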