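import Pool.Agent.K9h78.CC.Ladder
import Pool.Agent.W869.CC.Final

/-!
# A nonreflecting stationary subset of `𝔠⁺` is forced, without new reals
-/

set_option autoImplicit false

namespace Pool.Agent.K9h78.CC

open Cardinal Set
open Pool.Agent.W869.CC Pool.Agent.Helper669.Forcing

/-- In the extension every subset of `ℕ` belongs to the ground model. -/
def NoNewReals (P : Type) [Preorder P] : Set P :=
  fall fun x : ℕ → Set P => fex fun y : Set ℕ => fall fun n =>
    fiff (meets (fground (n ∈ y))) (meets (x n))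

/-- In the extension every subset of `ℕ` belongs to the ground model, there is no function from
the ground model `𝔠` onto the ground model `𝔠⁺`, and the latter has a nonreflecting stationary
subset. -/
def ContinuumN (P : Type) [Preorder P] : Set P :=
  fand (NoNewReals P) (fand (NoOnto P (𝔠 : Cardinal.{0}).ord.ToType (ZZ 𝔠))
    (fex fun S : ZZ 𝔠 → Set P => NonRefN S))

theorem forced_continuum : ∃ (P : Type) (_ : Preorder P),
    Nonempty P ∧ ∀ p : P, p ∈ ContinuumN P := by
  have hno : ∀ z : ZZ 𝔠, ∃ z', z < z' := ZZ.exists_gt aleph0_le_continuum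
  have hbd : ∀ (J : Type) (f : J → ZZ 𝔠), #J ≤ 𝔠 → ∃ b, ∀ j, f j ≤ b := by
    intro J f hJ
    obtain ⟨b, hb⟩ := ZZ.exists_bound aleph0_le_continuum (Set.range f) (Cardinal.mk_range_le.trans hJ)
    exact ⟨b, fun n => (hb _ ⟨n, rfl⟩).le⟩
  have hN : #ℕ ≤ 𝔠 := by rw [Cardinal.mk_nat]; exact aleph0_le_continuum
  have hK : #(𝔠 : Cardinal.{0}).ord.ToType ≤ 𝔠 := (mk_ord_toType _).le
  have hZ : Nonempty (ZZ 𝔠) := ZZ.nonempty aleph0_le_continuum
  refine ⟨Cond (ZZ 𝔠), inferInstance, ⟨Classical.choice hZ, ∅, fun α hα => absurd hα (by simp),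
    fun α hα => absurd hα (by simp), fun β _ hlim _ => ⟨fun _ => True, ⟨fun δ hδ => ?_,
      fun _ _ _ _ => trivial⟩, fun γ _ h => absurd h.2 (by simp)⟩⟩, fun p => ⟨?_, ?_, ?_⟩⟩
  · obtain ⟨γ, h1, h2⟩ := hlim.2 δ hδ
    exact ⟨γ, h1, h2, trivial⟩
  · intro x
    refine mem_fex.2 fun q _ => ?_
    obtain ⟨r, hr, x0, hx0⟩ := decide_set hno hbd hN x q
    exact ⟨r, hr, {n | x0 n}, fun n => fiff_of (fun h => (hx0 n).1 h) fun h => (hx0 n).2 h⟩
  · exact forces_noOnto hno hbd hK p
  · exact mem_fex_of_mem Sn (down_NonRefN _)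
      (forces_nonRef hno (fun f => hbd ℕ f hN) p)

end Pool.Agent.K9h78.CC
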