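import Pool.Agent.K9h78.CC.Small
import Pool.Agent.W869.CC.Equiv

/-!
# Free families of sequences
-/

set_option autoImplicit false

namespace Pool.Agent.K9h78.CC

open Cardinal Set
open Pool.Agent.W869.CC (CofOm)

section

variable {Z : Type} {B : Z → ℕ → Z}

theorem Free.mono {J J' : Set Z} (h : J ⊆ J') (hf : Free B J') : Free B J := by
  obtain ⟨N, hN⟩ := hf
  refine ⟨N, fun t => (hN t).mono ?_⟩
  rintro α ⟨h1, h2⟩
  exact ⟨h h1, h2⟩

theorem Free.of_countable {J : Set Z} (h : J.Countable) : Free B J :=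
  ⟨fun _ => 0, fun _ => h.mono fun _ hα => hα.1⟩

theorem Free.iUnion {J : ℕ → Set Z} (h : ∀ n, Free B (J n)) : Free B (⋃ n, J n) := by
  classical
  choose N hN using h
  refine ⟨fun α => if hα : ∃ n, α ∈ J n then N (Nat.find hα) α else 0, fun t => ?_⟩
  refine (Set.countable_iUnion fun n => hN n t).mono ?_
  rintro α ⟨hα, h1⟩
  have hα' : ∃ n, α ∈ J n := Set.mem_iUnion.1 hα
  simp only [dif_pos hα'] at h1
  exact Set.mem_iUnion.2 ⟨Nat.find hα', Nat.find_spec hα', h1⟩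

theorem Free.union {J J' : Set Z} (h : Free B J) (h' : Free B J') : Free B (J ∪ J') := by
  refine Free.mono ?_ (Free.iUnion (J := fun n => if n = 0 then J else J') fun n => ?_)
  · rintro x (hx | hx)
    · exact Set.mem_iUnion.2 ⟨0, by simpa using hx⟩
    · exact Set.mem_iUnion.2 ⟨1, by simpa using hx⟩
  · by_cases hn : n = 0
    · simpa [hn] using h
    · simpa [hn] using h'

variable [LinearOrder Z]

theorem free_step {E : Set Z} {δ : Z} (hIH : ∀ δ' < δ, Free B (E ∩ Iio δ')) (h : Z → Z)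
    (hh : ∀ b < δ, h b < δ) (hE : ∀ α ∈ E, α < δ → ∃ i, B α i < δ ∧ α < h (B α i)) :
    Free B (E ∩ Iio δ) := by
  classical
  have hex : ∀ δ' : Z, ∃ N : Z → ℕ, δ' < δ → ∀ t : Finset Z,
      {α ∈ E ∩ Iio δ' | ∀ i < N α, B α i ∈ t}.Countable := by
    intro δ'
    by_cases h1 : δ' < δ
    · obtain ⟨N, hN⟩ := hIH δ' h1
      exact ⟨N, fun _ => hN⟩
    · exact ⟨fun _ => 0, fun h2 => absurd h2 h1⟩
  choose N hN using hex
  have hi : ∀ α : Z, ∃ i, (α ∈ E ∧ α < δ) → B α i < δ ∧ α < h (B α i) := by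
    intro α
    by_cases h1 : α ∈ E ∧ α < δ
    · obtain ⟨i, hi⟩ := hE α h1.1 h1.2
      exact ⟨i, fun _ => hi⟩
    · exact ⟨0, fun h2 => absurd h2 h1⟩
  choose i hi using hi
  refine ⟨fun α => max (i α + 1) (N (h (B α (i α))) α), fun t => ?_⟩
  have key : {α ∈ E ∩ Iio δ | ∀ j < max (i α + 1) (N (h (B α (i α))) α), B α j ∈ t} ⊆
      ⋃ b ∈ t, {α | b < δ ∧ α ∈ {α ∈ E ∩ Iio (h b) | ∀ j < N (h b) α, B α j ∈ t}} := by
    rintro α ⟨⟨h1, h2⟩, h3⟩
    have h4 := hi α ⟨h1, h2⟩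
    have h5 : B α (i α) ∈ t := h3 _ (lt_of_lt_of_le (Nat.lt_succ_self _) (le_max_left _ _))
    refine Set.mem_biUnion h5 ⟨h4.1, ⟨h1, h4.2⟩, fun j hj => ?_⟩
    exact h3 j (lt_of_lt_of_le hj (le_max_right _ _))
  refine Set.Countable.mono key (t.countable_toSet.biUnion fun b _ => ?_)
  by_cases hb : b < δ
  · refine (hN (h b) (hh b hb) t).mono ?_
    rintro α ⟨-, h1⟩
    exact h1
  · refine (countable_empty (α := Z)).mono ?_
    rintro α ⟨h1, -⟩
    exact absurd h1 hb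

theorem free_induction [WellFoundedLT Z] {E : Set Z} (hlt : ∀ α ∈ E, ∀ i, B α i < α)
    (H : ∀ δ : Z, (∀ ζ < δ, ∃ ζ', ζ < ζ' ∧ ζ' < δ) → ¬ CofOm δ →
      (∀ ζ < δ, ∃ ε ∈ E, ζ ≤ ε ∧ ε < δ) → (∃ ζ, ζ < δ) →
      ∃ h : Z → Z, (∀ b < δ, h b < δ) ∧ ∀ α ∈ E, α < δ → ∃ i, α < h (B α i)) (δ : Z) :
    Free B (E ∩ Iio δ) := by
  induction δ using WellFoundedLT.induction with
  | ind δ ih =>
    by_cases h0 : ∃ ζ, ζ < δ
    swap
    · refine Free.of_countable ((countable_empty (α := Z)).mono ?_)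
      rintro α ⟨-, hα⟩
      exact h0 ⟨α, hα⟩
    by_cases hc : CofOm δ
    · obtain ⟨f, hf, hf'⟩ := hc
      refine Free.mono ?_ (Free.iUnion fun n => ih (f n) (hf n))
      rintro α ⟨h1, h2⟩
      obtain ⟨n, hn⟩ := hf' α h2
      exact Set.mem_iUnion.2 ⟨n, h1, hn⟩
    by_cases hl : ∀ ζ < δ, ∃ ζ', ζ < ζ' ∧ ζ' < δ
    swap
    · push Not at hl
      obtain ⟨ζ, h1, h2⟩ := hl
      refine Free.mono ?_ ((ih ζ h1).union (Free.of_countable (countable_singleton ζ)))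
      rintro α ⟨h3, h4⟩
      rcases lt_trichotomy α ζ with h5 | h5 | h5
      · exact Or.inl ⟨h3, h5⟩
      · exact Or.inr h5
      · exact absurd h4 (not_lt.2 (h2 α h5))
    by_cases hu : ∀ ζ < δ, ∃ ε ∈ E, ζ ≤ ε ∧ ε < δ
    swap
    · push Not at hu
      obtain ⟨ζ, h1, h2⟩ := hu
      refine Free.mono ?_ (ih ζ h1)
      rintro α ⟨h3, h4⟩
      refine ⟨h3, ?_⟩
      by_contra h5
      exact absurd h4 (not_lt.2 (h2 α h3 (not_lt.1 h5)))
    obtain ⟨h, hh, hE⟩ := H δ hl hc hu h0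
    refine free_step ih h hh fun α hα hαδ => ?_
    obtain ⟨i, hi⟩ := hE α hα hαδ
    exact ⟨i, (hlt α hα i).trans hαδ, hi⟩

end

end Pool.Agent.K9h78.CC
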