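import Pool.Agent.K9h78.CC.Counter

/-!
# Ladder systems on nonreflecting stationary sets
-/

set_option autoImplicit false

namespace Pool.Agent.K9h78.CC

open Cardinal Set
open Pool.Agent.W869.CC (CofOm IsLim ClubIn NonRef Nonreflecting)

theorem free_of_nonRef {κ : Cardinal.{0}} (hκ : ℵ₀ ≤ κ) {S : Set (ZZ κ)}
    (hS : NonRef fun x => x ∈ S) : ∃ B : ZZ κ → ℕ → ZZ κ,
    (∀ α ∈ S, ∀ i, B α i < α) ∧ ∀ J ⊆ S, #J ≤ κ → Free B J := by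
  classical
  obtain ⟨-, h2, h3⟩ := hS
  have hex : ∀ α : ZZ κ, ∃ f : ℕ → ZZ κ,
      α ∈ S → (∀ n, f n < α) ∧ ∀ δ < α, ∃ n, δ < f n := by
    intro α
    by_cases h : α ∈ S
    · obtain ⟨f, hf⟩ := h2 α h
      exact ⟨f, fun _ => hf⟩
    · exact ⟨fun _ => α, fun h' => absurd h' h⟩
  choose B hB using hex
  refine ⟨B, fun α hα => (hB α hα).1, ZZ.free_small hκ fun δ => ?_⟩
  refine free_induction (fun α hα => (hB α hα).1) (fun δ hlim hcof _ hne => ?_) δ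
  obtain ⟨C, ⟨hC1, hC2⟩, hC3⟩ := h3 δ ⟨hne, hlim⟩ hcof
  have hnext : ∀ b : ZZ κ, ∃ c : ZZ κ, b < δ → b < c ∧ c < δ ∧ C c := by
    intro b
    by_cases h : b < δ
    · obtain ⟨γ, h4⟩ := hC1 b h
      exact ⟨γ, fun _ => h4⟩
    · exact ⟨b, fun h' => absurd h' h⟩
  choose h hh using hnext
  refine ⟨h, fun b hb => (hh b hb).2.1, fun α hα hαδ => ?_⟩
  have h4 : ¬ ∀ ζ < α, ∃ γ, ζ < γ ∧ γ < α ∧ C γ := by
    intro h5
    exact hC3 α hαδ ⟨hC2 α hαδ ⟨_, (hB α hα).1 0⟩ h5, hα⟩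
  push Not at h4
  obtain ⟨ζ, h5, h6⟩ := h4
  obtain ⟨i, hi⟩ := (hB α hα).2 ζ h5
  have h7 := hh (B α i) (((hB α hα).1 i).trans hαδ)
  refine ⟨i, ?_⟩
  rcases lt_trichotomy α (h (B α i)) with h8 | h8 | h8
  · exact h8
  · rw [← h8] at h7
    exact absurd ⟨h7.2.2, hα⟩ (hC3 α hαδ)
  · exact absurd h7.2.2 (h6 _ (hi.trans h7.1) h8)

theorem not_reflectsAt_of_nonRef {κ : Cardinal.{0}} (hκ : 𝔠 ≤ κ) {S : ZZ κ → Prop}
    (hS : NonRef S) : ¬ ReflectsAt κ := by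
  have hκ0 : ℵ₀ ≤ κ := aleph0_le_continuum.trans hκ
  intro hR
  obtain ⟨B, h1, h2⟩ := free_of_nonRef hκ0 (S := {x | S x}) hS
  have h3 := ((Pool.Agent.W869.CC.nonRef_iff (ZZ.exists_gt hκ0) {x | S x}).1 hS).stationary
  obtain ⟨J, h3, h4, h5⟩ := hR {x | S x} B h3 h1
  exact h5 (h2 J h3 (h4.trans hκ))

end Pool.Agent.K9h78.CC
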