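import Pool.Agent.K9h78.CC.Small

/-!
# The space of a family of sequences on a stationary set is not a Corson compact space
-/

set_option autoImplicit false

namespace Pool.Agent.K9h78.CC

open Cardinal Set Topology Filter

section

variable {Z : Type} {S : Set Z} {B : Z → ℕ → Z}

/-- the last point -/
def ptI : KK S B := ⟨inf, Or.inr (Or.inr rfl)⟩

/-- limit points -/
noncomputable def ptL (α : Z) (hα : α ∈ S) : KK S B := ⟨lim S B α, Or.inr (Or.inl ⟨α, hα, rfl⟩)⟩

/-- isolated points -/
noncomputable def ptS (s : List Z) : KK S B := ⟨iso S B s, Or.inl ⟨s, rfl⟩⟩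

theorem tendsto_ptS (α : Z) (hα : α ∈ S) :
    Tendsto (fun n => (ptS (pre B α n) : KK S B)) atTop (𝓝 (ptL α hα)) := by
  rw [tendsto_subtype_rng, tendsto_pi_nhds]
  intro j
  refine tendsto_const_nhds.congr' ?_
  change ∀ᶠ n in atTop, lim S B α j = iso S B (pre B α n) j
  rcases j with s | β
  · filter_upwards [eventually_gt_atTop s.length] with n hn
    rw [lim_inl]
    rcases hb : iso S B (pre B α n) (.inl s) with _ | _
    · rfl
    · have h1 := congrArg List.length (iso_inl.1 hb)
      rw [length_pre] at h1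
      omega
  · by_cases hβ : β ∈ S ∧ B β = B α
    · filter_upwards with n
      rw [lim_inr.2 hβ]
      exact (iso_inr.2 ⟨hβ.1, n, pre_congr hβ.2.symm n⟩).symm
    · have h1 : lim S B α (.inr β) = false := by
        rcases hb : lim S B α (.inr β) with _ | _
        · rfl
        · exact absurd (lim_inr.1 hb) hβ
      by_cases hS : β ∈ S
      · have hne : B β ≠ B α := fun h => hβ ⟨hS, h⟩
        obtain ⟨k, hk⟩ : ∃ k, B β k ≠ B α k := by
          by_contra hcon
          push Not at hcon
          exact hne (funext hcon)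
        filter_upwards [eventually_gt_atTop k] with n hn
        rw [h1]
        rcases hb : iso S B (pre B α n) (.inr β) with _ | _
        · rfl
        · obtain ⟨-, m, hm⟩ := iso_inr.1 hb
          exact absurd ((pre_inj hm).2 k hn).symm hk
      · filter_upwards with n
        rw [h1]
        rcases hb : iso S B (pre B α n) (.inr β) with _ | _
        · rfl
        · exact absurd (iso_inr.1 hb).1 hS

theorem not_corson [LinearOrder Z]
    (hstat : ∀ F : List Z → Z, ∃ α ∈ S, ∀ s : List Z, (∀ x ∈ s, x < α) → F s < α)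
    (hlt : ∀ α ∈ S, ∀ i, B α i < α) (hbd : ∀ D : Set Z, D.Countable → ∃ b, ∀ x ∈ D, x ≤ b)
    (hfib : ∀ φ : ℕ → Z, {α ∈ S | B α = φ}.Countable) :
    ¬ ∃ (Γ : Type) (f : KK S B → (Γ → ℝ)),
      IsEmbedding f ∧ ∀ x, (Function.support (f x)).Countable := by
  rintro ⟨Γ, f, hf, hc⟩
  have hcoord : ∀ γ, Continuous fun x : KK S B => f x γ := fun γ =>
    (continuous_apply γ).comp hf.continuous
  let T : Γ → Set Z := fun γ => {α | ∃ hα : α ∈ S, f (ptL α hα) γ ≠ f ptI γ}
  have hT : ∀ γ, (T γ).Countable := by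
    intro γ
    have h1 : T γ ⊆ ⋃ m : ℕ, {α | ∃ hα : α ∈ S,
        1 / ((m : ℝ) + 1) ≤ |f (ptL α hα) γ - f ptI γ|} := by
      rintro α ⟨hα, h⟩
      have h2 : 0 < |f (ptL α hα) γ - f ptI γ| := abs_pos.2 (sub_ne_zero.2 h)
      obtain ⟨m, hm⟩ := exists_nat_one_div_lt h2
      exact Set.mem_iUnion.2 ⟨m, hα, hm.le⟩
    refine (Set.countable_iUnion fun m => ?_).mono h1
    have hpos : (0 : ℝ) < 1 / ((m : ℝ) + 1) := by positivity
    have hop : IsOpen {x : KK S B | |f x γ - f ptI γ| < 1 / ((m : ℝ) + 1)} :=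
      isOpen_lt (((hcoord γ).sub continuous_const).abs) continuous_const
    obtain ⟨V, hV, hV'⟩ := isOpen_induced_iff.1 hop
    have hinf : (inf : (List Z ⊕ Z) → Bool) ∈ V := by
      have : (ptI : KK S B) ∈ Subtype.val ⁻¹' V := by
        rw [hV']
        simpa using hpos
      exact this
    obtain ⟨I, u, hu, hIu⟩ := isOpen_pi_iff.1 hV _ hinf
    have h3 : {α | ∃ hα : α ∈ S, 1 / ((m : ℝ) + 1) ≤ |f (ptL α hα) γ - f ptI γ|} ⊆
        ⋃ j ∈ I, {α ∈ S | ∃ β, j = Sum.inr β ∧ B α = B β} := by
      rintro α ⟨hα, h⟩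
      have h4 : lim S B α ∉ V := by
        intro h5
        have h6 : (ptL α hα : KK S B) ∈ Subtype.val ⁻¹' V := h5
        rw [hV'] at h6
        exact absurd h6 (not_lt.2 h)
      have h5 : lim S B α ∉ (I : Set (List Z ⊕ Z)).pi u := fun h6 => h4 (hIu h6)
      rw [Set.mem_pi] at h5
      push Not at h5
      obtain ⟨j, hj, hj'⟩ := h5
      have h6 : lim S B α j = true := by
        rcases hb : lim S B α j with _ | _
        · exact absurd (by rw [hb]; exact (hu j hj).2) hj'
        · rfl
      rcases j with s | β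
      · rw [lim_inl] at h6
        exact absurd h6 (by simp)
      · obtain ⟨-, h7⟩ := lim_inr.1 h6
        exact Set.mem_biUnion hj ⟨hα, β, rfl, h7.symm⟩
    refine Set.Countable.mono h3 (I.countable_toSet.biUnion fun j hj => ?_)
    rcases j with s | β
    · refine (countable_empty (α := Z)).mono ?_
      rintro α ⟨-, β, h, -⟩
      simp at h
    · refine (hfib (B β)).mono ?_
      rintro α ⟨h1, β', h2, h3⟩
      rw [Sum.inr.injEq] at h2
      subst h2
      exact ⟨h1, h3⟩
  let W : List Z → Set Z := fun s =>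
    ⋃ γ ∈ (Function.support (f (ptS s)) ∪ Function.support (f ptI)), T γ
  have hW : ∀ s, (W s).Countable := fun s =>
    ((hc _).union (hc _)).biUnion fun γ _ => hT γ
  choose F hF using fun s => hbd (W s) (hW s)
  obtain ⟨α, hα, hcl⟩ := hstat F
  have hne : (ptL α hα : KK S B) ≠ ptI := by
    intro h
    have h1 := congrArg (fun x : KK S B => x.1 (.inr α)) h
    have h2 : lim S B α (.inr α) = true := lim_inr.2 ⟨hα, rfl⟩
    simp only [ptL, ptI] at h1
    rw [h2] at h1
    simp [inf] at h1
  obtain ⟨γ, hγ⟩ : ∃ γ, f (ptL α hα) γ ≠ f ptI γ := by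
    by_contra hcon
    push Not at hcon
    exact hne (hf.injective (funext hcon))
  have ht : Tendsto (fun n => f (ptS (pre B α n)) γ) atTop (𝓝 (f (ptL α hα) γ)) :=
    ((hcoord γ).tendsto _).comp (tendsto_ptS α hα)
  obtain ⟨n, hn⟩ := (ht.eventually_ne hγ).exists
  have h1 : α ∈ W (pre B α n) := by
    refine Set.mem_biUnion (x := γ) ?_ ⟨hα, hγ⟩
    by_contra hcon
    rw [Set.mem_union, not_or, Function.notMem_support, Function.notMem_support] at hcon
    exact hn (hcon.1.trans hcon.2.symm)
  have h2 := hF _ α h1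
  have h3 := hcl (pre B α n) (by
    intro x hx
    obtain ⟨i, -, rfl⟩ := mem_pre.1 hx
    exact hlt α hα i)
  exact absurd h3 (not_lt.2 h2)

end

end Pool.Agent.K9h78.CC
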