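import Pool.Agent.K9h78.CC.Equiv

/-!
# A positive answer from a reflection principle
-/

set_option autoImplicit false

namespace Pool.Agent.K9h78.CC

open Cardinal Set Topology
open Pool.Agent.Helper102.CorsonTools

/-- The family `T` of sets is stationary in the set of the countable subsets of `A`: for each finitary
operation `F` on `A`, some countable `M ⊆ A` closed under `F` belongs to `T`. -/
def StatIn {Z : Type} (T : Set (Set Z)) (A : Set Z) : Prop :=
  ∀ F : List Z → Z, (∀ s : List Z, (∀ a ∈ s, a ∈ A) → F s ∈ A) →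
    ∃ M ∈ T, M ⊆ A ∧ M.Countable ∧ ∀ s : List Z, (∀ a ∈ s, a ∈ M) → F s ∈ M

/-- The reflection principle: if `T` is stationary in the set of the countable subsets of `Z`, and
`Φ` assigns to each countable subset of `Z` a countable subset of `Z`, then there is a nonempty
`A ⊆ Z` of size at most `𝔠`, closed under `Φ`, such that `T` is stationary in the set of the
countable subsets of `A`. -/
def StationaryReflection : Prop :=
  ∀ (Z : Type) [Nonempty Z] (T : Set (Set Z)) (Φ : Set Z → Set Z), StatIn T univ →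
    (∀ M : Set Z, M.Countable → (Φ M).Countable) →
      ∃ A : Set Z, A.Nonempty ∧ #A ≤ 𝔠 ∧ (∀ M ⊆ A, M.Countable → Φ M ⊆ A) ∧ StatIn T A

section Closing

variable {Z : Type}

theorem exists_list_mem {𝒮 : ℕ → Set Z} (hm : Monotone 𝒮) (s : List Z)
    (hs : ∀ a ∈ s, a ∈ ⋃ n, 𝒮 n) : ∃ n, ∀ a ∈ s, a ∈ 𝒮 n := by
  induction s with
  | nil => exact ⟨0, by simp⟩
  | cons b s ih =>
    obtain ⟨n, hn⟩ := ih fun a ha => hs a (List.mem_cons_of_mem b ha)
    obtain ⟨m, hm'⟩ := mem_iUnion.1 (hs b List.mem_cons_self)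
    refine ⟨max n m, fun a ha => ?_⟩
    rcases List.mem_cons.1 ha with rfl | ha
    · exact hm (le_max_right _ _) hm'
    · exact hm (le_max_left _ _) (hn a ha)

/-- closing off under countably valued operations on lists -/
theorem close_lists (H : List Z → Set Z) (hH : ∀ s, (H s).Countable) (S : Set Z) :
    ∃ S', S ⊆ S' ∧ (∀ s : List Z, (∀ a ∈ s, a ∈ S') → H s ⊆ S') ∧ #S' ≤ max #S ℵ₀ := by
  classical
  let nxt : Set Z → Set Z := fun A => A ∪ ⋃ s ∈ {s : List Z | ∀ a ∈ s, a ∈ A}, H s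
  have hnc : ∀ A : Set Z, #(nxt A) ≤ max #A ℵ₀ := by
    intro A
    refine (mk_union_le _ _).trans (add_le_of_le (le_max_right _ _) (le_max_left _ _) ?_)
    refine mk_biUnion_le_of' (le_max_right _ _) ?_ fun s _ => hH s
    have h1 : {s : List Z | ∀ a ∈ s, a ∈ A} ⊆ range (fun l : List A => l.map Subtype.val) := by
      intro s hs
      refine ⟨s.attach.map fun a => ⟨a.1, hs a.1 a.2⟩, ?_⟩
      simp [List.map_map, Function.comp_def]
    refine (mk_le_mk_of_subset h1).trans (mk_range_le.trans ?_)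
    refine (mk_list_le_max A).trans ?_
    exact max_le (le_max_right _ _) (le_max_left _ _)
  let a : ℕ → Set Z := fun n => Nat.rec S (fun _ B => nxt B) n
  have ha : ∀ n, a (n + 1) = nxt (a n) := fun n => rfl
  have hamono : Monotone a := monotone_nat_of_le_succ fun n => by
    rw [ha]
    exact subset_union_left
  have hac : ∀ n, #(↥(a n)) ≤ max #S ℵ₀ := by
    intro n
    induction n with
    | zero => exact le_max_left _ _
    | succ n ih =>
      rw [ha]
      exact (hnc _).trans (max_le ih (le_max_right _ _))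
  refine ⟨⋃ n, a n, subset_iUnion a 0, fun s hs => ?_, ?_⟩
  · obtain ⟨n, hn⟩ := exists_list_mem hamono s hs
    refine subset_trans ?_ (subset_iUnion a (n + 1))
    rw [ha]
    exact subset_trans (subset_biUnion_of_mem (u := fun s => H s)
      (show s ∈ {s : List Z | ∀ b ∈ s, b ∈ a n} from hn)) subset_union_right
  · refine (Cardinal.mk_iUnion_le _).trans ?_
    calc #ℕ * (⨆ n, #(↥(a n))) ≤ (max #S ℵ₀) * (max #S ℵ₀) := by
          apply mul_le_mul'
          · rw [Cardinal.mk_nat]
            exact le_max_right _ _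
          · exact ciSup_le' hac
      _ = max #S ℵ₀ := Cardinal.mul_eq_self (le_max_right _ _)

theorem list_chain {𝒮 : Set (Set Z)} (hne : 𝒮.Nonempty) (hc : IsChain (· ⊆ ·) 𝒮) (s : List Z)
    (hs : ∀ a ∈ s, a ∈ ⋃₀ 𝒮) : ∃ A ∈ 𝒮, ∀ a ∈ s, a ∈ A := by
  induction s with
  | nil =>
    obtain ⟨A, hA⟩ := hne
    exact ⟨A, hA, by simp⟩
  | cons b s ih =>
    obtain ⟨A, hA, h1⟩ := ih fun a ha => hs a (List.mem_cons_of_mem b ha)
    obtain ⟨B, hB, h2⟩ := hs b List.mem_cons_self
    rcases hc.total hA hB with h | h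
    · refine ⟨B, hB, fun a ha => ?_⟩
      rcases List.mem_cons.1 ha with rfl | ha
      · exact h2
      · exact h (h1 a ha)
    · refine ⟨A, hA, fun a ha => ?_⟩
      rcases List.mem_cons.1 ha with rfl | ha
      · exact h h2
      · exact h1 a ha

end Closing

theorem sepOn_univ {X : Type} [TopologicalSpace X] [CompactSpace X] [T2Space X] :
    SepOn (univ : Set X) (univ : Set C(X, ℝ)) := by
  intro y _ z _ hyz
  by_contra hne
  obtain ⟨f, hf1, hf2, -⟩ := exists_continuous_zero_one_of_isClosed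
    (isClosed_singleton (x := y)) (isClosed_singleton (x := z)) (by simpa using hne)
  have h1 := hyz f trivial
  have h2 : f y = 0 := hf1 rfl
  have h3 : f z = 1 := hf2 rfl
  rw [h2, h3] at h1
  exact zero_ne_one h1

/-- the reflection principle makes almost all countable pairs good -/
theorem exists_closing (hRP : StationaryReflection) {X : Type} [TopologicalSpace X]
    [CompactSpace X] [T2Space X] [Nonempty X] (hX : SmallClosuresCorson X) :
    ∃ F : List (X × C(X, ℝ)) → X × C(X, ℝ), ∀ M : Set (X × C(X, ℝ)), M.Countable →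
      (∀ s : List (X × C(X, ℝ)), (∀ a ∈ s, a ∈ M) → F s ∈ M) →
        SepOn (closure (Prod.fst '' M)) (Prod.snd '' M) := by
  classical
  by_contra hcon
  push Not at hcon
  let Z := X × C(X, ℝ)
  have hg : SepOn (univ : Set X) (range (Prod.snd : Z → C(X, ℝ))) := by
    rw [Prod.range_snd]
    exact sepOn_univ
  have hPhi : ∀ M : Set Z, ∃ A : Set Z, A.Countable ∧
      (M.Countable → SepOn (closure (Prod.fst '' M)) (Prod.snd '' A)) := by
    intro M
    by_cases hM : M.Countable
    · have hM' : #M ≤ ℵ₀ := Cardinal.le_aleph0_iff_set_countable.2 hM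
      obtain ⟨A, hA, hs⟩ := sep_step (x := (Prod.fst : Z → X)) (g := (Prod.snd : Z → C(X, ℝ)))
        le_rfl hg hM' (corsonOn_closure (hX _ (mk_image_le.trans
          (hM'.trans aleph0_le_continuum))))
      exact ⟨A, Cardinal.le_aleph0_iff_set_countable.1 hA, fun _ => hs⟩
    · exact ⟨∅, countable_empty, fun h => absurd h hM⟩
  choose Φ hΦ1 hΦ2 using hPhi
  obtain ⟨A, hAne, hAc, hAΦ, hst⟩ := hRP Z
    {M | ¬ SepOn (closure (Prod.fst '' M)) (Prod.snd '' M)} Φ (by
      intro F _
      obtain ⟨M, h1, h2, h3⟩ := hcon F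
      exact ⟨M, h3, subset_univ _, h1, h2⟩) (fun M _ => hΦ1 M)
  have hcorA : CorsonOn (closure (Prod.fst '' A)) := corsonOn_closure (hX _ (mk_image_le.trans hAc))
  have hsepA : SepOn (closure (Prod.fst '' A)) (Prod.snd '' A) := by
    intro y hy z hz hyz
    obtain ⟨C, hC, hCc, hyC⟩ := tight_index hcorA hy
    obtain ⟨C', hC', hCc', hzC⟩ := tight_index hcorA hz
    have h1 : (C ∪ C').Countable := hCc.union hCc'
    refine hΦ2 (C ∪ C') h1 y (closure_mono (image_mono subset_union_left) hyC) z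
      (closure_mono (image_mono subset_union_right) hzC) fun f hf => hyz f ?_
    exact image_mono (hAΦ _ (union_subset hC hC') h1) hf
  obtain ⟨F', hF'1, hF'2⟩ := hcorA
  have hdep : ∀ f : C(X, ℝ), ∃ I ⊆ A, I.Countable ∧
      ∀ y ∈ closure (Prod.fst '' A), ∀ z ∈ closure (Prod.fst '' A),
        (∀ a ∈ I, a.2 y = a.2 z) → f y = f z := by
    intro f
    obtain ⟨A', hAM, hA', h5⟩ := depends (K := closure (Prod.fst '' A)) isClosed_closure hsepA f
    choose! ix hix using fun c (hc : c ∈ A') => hAM hc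
    refine ⟨ix '' A', ?_, hA'.image _, fun y hy z hz hyz => h5 y hy z hz fun a ha => ?_⟩
    · rintro _ ⟨a, ha, rfl⟩
      exact (hix a ha).1
    · have h6 := hyz (ix a) ⟨a, ha, rfl⟩
      rwa [(hix a ha).2] at h6
  choose I hI1 hI2 hI3 using hdep
  have henum : ∀ b : Z, ∃ e : ℕ → Z, b ∈ A → (∀ n, e n ∈ A) ∧
      ∀ f ∈ F', f b.1 ≠ 0 → ∀ a ∈ I f, ∃ n, e n = a := by
    intro b
    by_cases hb : b ∈ A
    · have hcount : ({b} ∪ ⋃ f ∈ {f | f ∈ F' ∧ f b.1 ≠ 0}, I f).Countable :=
        (countable_singleton b).union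
          ((hF'1 b.1 (subset_closure ⟨b, hb, rfl⟩)).biUnion fun f _ => hI2 f)
      obtain ⟨e, he⟩ := hcount.exists_eq_range ⟨b, Or.inl rfl⟩
      refine ⟨e, fun _ => ⟨fun n => ?_, fun f hf hne a ha => ?_⟩⟩
      · have h1 : e n ∈ {b} ∪ ⋃ f ∈ {f | f ∈ F' ∧ f b.1 ≠ 0}, I f := by rw [he]; exact ⟨n, rfl⟩
        rcases h1 with h1 | h1
        · rw [mem_singleton_iff] at h1
          rw [h1]; exact hb
        · obtain ⟨f, -, hf⟩ := mem_iUnion₂.1 h1
          exact hI1 f hf
      · have h1 : a ∈ {b} ∪ ⋃ f ∈ {f | f ∈ F' ∧ f b.1 ≠ 0}, I f :=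
          Or.inr (mem_biUnion (show f ∈ {f | f ∈ F' ∧ f b.1 ≠ 0} from ⟨hf, hne⟩) ha)
        rw [he] at h1
        exact h1
    · exact ⟨fun _ => b, fun h => absurd h hb⟩
  choose e he using henum
  obtain ⟨a0, ha0⟩ := hAne
  let G : List Z → Z := fun s => match s with
    | [] => a0
    | b :: t => e b t.length
  obtain ⟨M, hMT, hMA, hMc, hMG⟩ := hst G (by
    intro s hs
    rcases s with _ | ⟨b, t⟩
    · exact ha0
    · exact (he b (hs b List.mem_cons_self)).1 _)
  apply hMT
  have hsub : closure (Prod.fst '' M) ⊆ closure (Prod.fst '' A) := closure_mono (image_mono hMA)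
  intro y hy z hz hyz
  refine hF'2 y (hsub hy) z (hsub hz) fun f hf => ?_
  by_cases hv : ∃ b ∈ M, f b.1 ≠ 0
  · obtain ⟨b, hb, hne⟩ := hv
    refine hI3 f y (hsub hy) z (hsub hz) fun a ha => hyz a.2 ⟨a, ?_, rfl⟩
    obtain ⟨n, hn⟩ := (he b (hMA hb)).2 f hf hne a ha
    rw [← hn]
    have h1 := hMG (b :: List.replicate n b) (by
      intro c hc
      rcases List.mem_cons.1 hc with rfl | hc
      · exact hb
      · rw [List.eq_of_mem_replicate hc]; exact hb)
    simpa [G] using h1
  · push Not at hv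
    have hv' : ∀ c ∈ Prod.fst '' M, f c = 0 := by
      rintro _ ⟨b, hb, rfl⟩
      exact hv b hb
    rw [vanish_closure hv' _ hy, vanish_closure hv' _ hz]

end Pool.Agent.K9h78.CC
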