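import Pool.Agent.K9h78.CC.Rp

/-!
# A positive answer from a reflection principle: conclusion
-/

set_option autoImplicit false

namespace Pool.Agent.K9h78.CC

open Cardinal Set Topology
open Pool.Agent.Helper102.CorsonTools

theorem corsonOn_of_reflection (hRP : StationaryReflection) (kap : Cardinal.{0}) :
    ∀ (X : Type) [TopologicalSpace X] [CompactSpace X] [T2Space X], SmallClosuresCorson X →
      ∀ D : Set X, Dense D → #D = kap → CorsonOn (univ : Set X) := by
  classical
  induction kap using WellFoundedLT.induction with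
  | ind kap ih =>
    intro X _ _ _ hX D hD hDk
    rcases isEmpty_or_nonempty X with hemp | hne
    · exact ⟨∅, fun x _ => hemp.elim x, fun x _ => hemp.elim x⟩
    rcases le_or_gt kap 𝔠 with hk | hk
    · exact (upTo_continuum X D hD (hDk.le.trans hk) hX).corsonOn
    have hct := ctight hX
    obtain ⟨F, hF⟩ := exists_closing hRP hX
    -- the density functions
    have hE : ∀ s : List (X × C(X, ℝ)), ∃ E : Set (X × C(X, ℝ)), E.Countable ∧
        Dn univ (Prod.fst '' E) {f | ∃ a ∈ s, f = a.2} := by
      intro s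
      exact dens_step (Prod.fst : X × C(X, ℝ) → X) (by
        rw [Prod.range_fst]; exact dense_univ) (Prod.snd : X × C(X, ℝ) → C(X, ℝ)) s
    choose E hE1 hE2 using hE
    let H : List (X × C(X, ℝ)) → Set (X × C(X, ℝ)) := fun s => {F s} ∪ E s
    have hH : ∀ s, (H s).Countable := fun s => (countable_singleton _).union (hE1 s)
    let P : Set (X × C(X, ℝ)) → Prop := fun A =>
      ∀ s : List (X × C(X, ℝ)), (∀ a ∈ s, a ∈ A) → H s ⊆ A
    have hgood : ∀ A, P A → Good (Prod.fst '' A) (Prod.snd '' A) := by
      intro A hA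
      constructor
      · let ι := {s : List (X × C(X, ℝ)) // ∀ a ∈ s, a ∈ A}
        have hι : Nonempty ι := ⟨⟨[], by simp⟩⟩
        have h4 := Dn_iUnion (ι := ι) (Z := univ) (B := fun _ => Prod.fst '' A)
          (M := fun s => {f | ∃ a ∈ s.1, f = a.2}) (fun s s' => ⟨⟨s.1 ++ s'.1, ?_⟩, subset_rfl,
            subset_rfl, ?_, ?_⟩) (fun s y hy => ?_)
        · intro y hy
          obtain ⟨y', hy', hf⟩ := h4 y hy
          rw [iUnion_const] at hy'
          refine ⟨y', hy', ?_⟩
          rintro _ ⟨a, ha, rfl⟩
          exact hf a.2 (mem_iUnion.2 ⟨⟨[a], by simpa using ha⟩, a, by simp, rfl⟩)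
        · intro a ha
          rcases List.mem_append.1 ha with h | h
          · exact s.2 a h
          · exact s'.2 a h
        · rintro f ⟨a, ha, rfl⟩
          exact ⟨a, List.mem_append.2 (Or.inl ha), rfl⟩
        · rintro f ⟨a, ha, rfl⟩
          exact ⟨a, List.mem_append.2 (Or.inr ha), rfl⟩
        · obtain ⟨y', hy', hf⟩ := hE2 s.1 y hy
          exact ⟨y', closure_mono (image_mono (subset_union_right.trans (hA s.1 s.2))) hy', hf⟩
      · intro y hy z hz hyz
        obtain ⟨C, hC, hCc, hyC⟩ := hct _ y hy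
        obtain ⟨C', hC', hCc', hzC⟩ := hct _ z hz
        obtain ⟨N, hN1, hN2, hN3⟩ : ∃ N ⊆ A, N.Countable ∧ C ∪ C' ⊆ Prod.fst '' N := by
          choose! ix hix using fun c (hc : c ∈ C ∪ C') => (union_subset hC hC') hc
          refine ⟨ix '' (C ∪ C'), ?_, (hCc.union hCc').image _, fun c hc => ?_⟩
          · rintro _ ⟨c, hc, rfl⟩
            exact (hix c hc).1
          · exact ⟨ix c, ⟨c, hc, rfl⟩, (hix c hc).2⟩
        obtain ⟨S', h1, h2, h3⟩ := close_lists (fun s => {F s}) (fun s => countable_singleton _) N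
        have hS' : S'.Countable := Cardinal.le_aleph0_iff_set_countable.1
          (h3.trans (max_le (Cardinal.le_aleph0_iff_set_countable.2 hN2) le_rfl))
        have h4 := hF (S' ∩ A) (hS'.mono inter_subset_left) (fun s hs =>
          ⟨h2 s (fun a ha => (hs a ha).1) rfl,
            hA s (fun a ha => (hs a ha).2) (Or.inl rfl)⟩)
        have h5 : C ∪ C' ⊆ Prod.fst '' (S' ∩ A) :=
          hN3.trans (image_mono (subset_inter h1 hN1))
        refine h4 y (closure_mono (subset_union_left.trans h5) hyC) z
          (closure_mono (subset_union_right.trans h5) hzC) fun f hf => hyz f ?_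
        exact image_mono inter_subset_right hf
    have hPU : ∀ 𝒮 : Set (Set (X × C(X, ℝ))), 𝒮.Nonempty → IsChain (· ⊆ ·) 𝒮 →
        (∀ S ∈ 𝒮, P S) → P (⋃₀ 𝒮) := by
      intro 𝒮 hne hch hall s hs
      obtain ⟨A, hA, h1⟩ := list_chain hne hch s hs
      exact (hall A hA s h1).trans (subset_sUnion_of_mem hA)
    obtain ⟨ι, hlo, hwf, hneι, S, hmono, hP, hcard, hlim, hDS⟩ :=
      chain_exists (T := X × C(X, ℝ)) (kap := kap) ℵ₀ le_rfl (aleph0_le_continuum.trans_lt hk) P
        hPU (fun S _ => by
          obtain ⟨S', h1, h2, h3⟩ := close_lists H hH S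
          exact ⟨S', h1, h2, h3⟩) ((fun d => ((d, 0) : X × C(X, ℝ))) '' D)
        (Cardinal.mk_image_le.trans hDk.le)
    have hDsub : D ⊆ ⋃ i, Prod.fst '' (S i) := by
      intro d hd
      obtain ⟨i, hi⟩ := mem_iUnion.1 (hDS ⟨d, hd, rfl⟩)
      exact mem_iUnion.2 ⟨i, (d, 0), hi, rfl⟩
    have hdense : Dense (⋃ i, Prod.fst '' (S i)) := hD.mono hDsub
    refine chain_lemma hct (fun i => Prod.fst '' (S i)) (fun i => Prod.snd '' (S i))
      (fun i j hij => image_mono (hmono hij)) (fun i j hij => image_mono (hmono hij))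
      (fun i => hgood _ (hP i)) ?_ ?_ hdense ?_ ?_
    · rintro i hi _ ⟨b, hb, rfl⟩
      obtain ⟨j, hj, h1⟩ := hlim i hi b hb
      exact ⟨j, hj, b, h1, rfl⟩
    · rintro i hi _ ⟨b, hb, rfl⟩
      obtain ⟨j, hj, h1⟩ := hlim i hi b hb
      exact ⟨j, hj, b, h1, rfl⟩
    · have h1 : P (⋃₀ (range S)) := by
        refine hPU (range S) (range_nonempty S) ?_ ?_
        · rintro _ ⟨i, rfl⟩ _ ⟨j, rfl⟩ _
          rcases le_total i j with h | h
          · exact Or.inl (hmono h)
          · exact Or.inr (hmono h)
        · rintro _ ⟨i, rfl⟩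
          exact hP i
      rw [sUnion_range] at h1
      have h2 := (hgood _ h1).2
      rw [image_iUnion, image_iUnion] at h2
      rwa [hdense.closure_eq] at h2
    · intro i
      apply CorsonOn.of_subtype isClosed_closure
      have hcomp : CompactSpace (closure (Prod.fst '' (S i))) :=
        isCompact_iff_compactSpace.1 isClosed_closure.isCompact
      have hDY : Dense (Subtype.val ⁻¹' (Prod.fst '' (S i)) :
          Set (closure (Prod.fst '' (S i)))) := by
        intro y
        rw [Topology.IsInducing.subtypeVal.closure_eq_preimage_closure_image]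
        rw [Subtype.image_preimage_coe, inter_eq_right.2 subset_closure]
        exact y.2
      refine ih _ ?_ (closure (Prod.fst '' (S i))) hX.subtype _ hDY rfl
      exact ((mk_preimage_of_injective _ _ Subtype.val_injective).trans mk_image_le).trans_lt
        (hcard i)

/-- **A positive answer from stationary reflection.** -/
theorem corson_of_reflection (hRP : StationaryReflection) (X : Type) [TopologicalSpace X]
    [CompactSpace X] [T2Space X] (hX : SmallClosuresCorson X) : Corson X :=
  CorsonOn.corson (corsonOn_of_reflection hRP _ X hX univ dense_univ rfl)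

end Pool.Agent.K9h78.CC
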