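import Pool.Agent.K9h78.CC.Space

/-!
# The closures of small sets
-/

set_option autoImplicit false

namespace Pool.Agent.K9h78.CC

open Cardinal Set Topology

section Small

variable {Z : Type} {S : Set Z} {B : Z → ℕ → Z}

/-- The subfamily of the sequences `B α`, `α ∈ J`, is free: one can choose a finite initial segment
of each of them such that every finite set contains only countably many of the chosen segments. -/
def Free {Z : Type} (B : Z → ℕ → Z) (J : Set Z) : Prop :=
  ∃ N : Z → ℕ, ∀ t : Finset Z, {α ∈ J | ∀ i < N α, B α i ∈ t}.Countable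

variable (S B)

/-- the closed set of the points given by sequences in `D` -/
def XB (D : Set Z) : Set (KK S B) :=
  {x | (∀ s : List Z, (∃ y ∈ s, y ∉ D) → x.1 (.inl s) = false) ∧
    ∀ α ∈ S, ∀ i, B α i ∉ D → (x.1 (.inr α) = false ∨ ∃ n ≤ i, x.1 (.inl (pre B α n)) = true)}

variable {S B}

theorem continuous_coord (j : List Z ⊕ Z) : Continuous (fun x : KK S B => x.1 j) := by
  have h : Continuous (fun x : (List Z ⊕ Z) → Bool => x j) := continuous_apply j
  exact h.comp continuous_subtype_val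

theorem isClosed_c (j : List Z ⊕ Z) (b : Bool) : IsClosed {x : KK S B | x.1 j = b} :=
  (isClosed_discrete ({b} : Set Bool)).preimage (continuous_coord j)

theorem isOpen_c (j : List Z ⊕ Z) (b : Bool) : IsOpen {x : KK S B | x.1 j = b} :=
  (isOpen_discrete ({b} : Set Bool)).preimage (continuous_coord j)

theorem isClosed_XB (δ : Set Z) : IsClosed (XB S B δ) := by
  have h : XB S B δ = (⋂ s : List Z, ⋂ _ : ∃ y ∈ s, y ∉ δ, {x : KK S B | x.1 (.inl s) = false}) ∩
      ⋂ α : Z, ⋂ _ : α ∈ S, ⋂ i : ℕ, ⋂ _ : B α i ∉ δ,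
        ({x : KK S B | x.1 (.inr α) = false} ∪
          ⋃ n ∈ Set.Iic i, {x : KK S B | x.1 (.inl (pre B α n)) = true}) := by
    ext x
    simp only [XB, Set.mem_ofPred_eq, Set.mem_inter_iff, Set.mem_iInter, Set.mem_union,
      Set.mem_iUnion, Set.mem_Iic, exists_prop]
  rw [h]
  refine IsClosed.inter (isClosed_iInter fun s => isClosed_iInter fun _ => isClosed_c _ _)
    (isClosed_iInter fun α => isClosed_iInter fun _ => isClosed_iInter fun i =>
      isClosed_iInter fun _ => IsClosed.union (isClosed_c _ _) ?_)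
  exact (finite_Iic i).isClosed_biUnion fun n _ => isClosed_c _ _

theorem XB_mono {δ δ' : Set Z} (h : δ ⊆ δ') : XB S B δ ⊆ XB S B δ' := fun x hx =>
  ⟨fun s ⟨y, hy, hy'⟩ => hx.1 s ⟨y, hy, fun h1 => hy' (h h1)⟩,
    fun α hα i hi => hx.2 α hα i fun h1 => hi (h h1)⟩

theorem iso_mem_XB {δ : Set Z} {s : List Z} (x : KK S B) (hx : x.1 = iso S B s) :
    x ∈ XB S B δ ↔ ∀ y ∈ s, y ∈ δ := by
  constructor
  · intro h y hy
    by_contra hc
    have h1 := h.1 s ⟨y, hy, hc⟩
    rw [hx, iso_inl.2 rfl] at h1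
    exact absurd h1 (by simp)
  · intro h
    refine ⟨fun s' ⟨y, hy, hy'⟩ => ?_, fun α hα i hi => ?_⟩
    · rcases hb : x.1 (.inl s') with _ | _
      · rfl
      · rw [hx, iso_inl] at hb
        subst hb
        exact absurd (h y hy) hy'
    · rcases hb : x.1 (.inr α) with _ | _
      · exact Or.inl rfl
      · rw [hx] at hb
        obtain ⟨-, n, rfl⟩ := iso_inr.1 hb
        refine Or.inr ⟨n, ?_, ?_⟩
        · by_contra hc
          exact absurd (h _ (mem_pre.2 ⟨i, not_le.1 hc, rfl⟩)) hi
        · rw [hx]; exact iso_inl.2 rfl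

theorem lim_mem_XB {δ : Set Z} {α : Z} (hα : α ∈ S) (x : KK S B) (hx : x.1 = lim S B α) :
    x ∈ XB S B δ ↔ ∀ i, B α i ∈ δ := by
  constructor
  · intro h i
    by_contra hc
    rcases h.2 α hα i hc with h1 | ⟨n, -, h1⟩
    · rw [hx, lim_inr.2 ⟨hα, rfl⟩] at h1
      exact absurd h1 (by simp)
    · rw [hx, lim_inl] at h1
      exact absurd h1 (by simp)
  · intro h
    refine ⟨fun s' _ => by rw [hx]; rfl, fun β hβ i hi => ?_⟩
    rcases hb : x.1 (.inr β) with _ | _
    · exact Or.inl rfl
    · rw [hx] at hb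
      have h1 := (lim_inr.1 hb).2
      rw [h1] at hi
      exact absurd (h i) hi

theorem inf_mem_XB {δ : Set Z} (x : KK S B) (hx : x.1 = inf) : x ∈ XB S B δ := by
  refine ⟨fun s' _ => by rw [hx]; rfl, fun β hβ i hi => Or.inl (by rw [hx]; rfl)⟩

/-- numerical value -/
noncomputable def psi (b : Bool) : ℝ := if b then 1 else 0

open Classical in
/-- the coordinates of the embedding -/
noncomputable def gg (B : Z → ℕ → Z) (J : Set Z) (N : Z → ℕ) (x : (List Z ⊕ Z) → Bool) :
    (List Z ⊕ Z) → ℝ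
  | .inl s => psi (x (.inl s))
  | .inr α => if α ∈ J then
      psi (x (.inr α)) * ∏ n ∈ Finset.range (N α), (1 - psi (x (.inl (pre B α n)))) else 0

theorem gg_inl {J : Set Z} {N : Z → ℕ} {x : (List Z ⊕ Z) → Bool} {s : List Z} :
    gg B J N x (.inl s) ≠ 0 ↔ x (.inl s) = true := by
  simp only [gg, psi]
  split_ifs with h <;> simp [h]

theorem gg_inr {J : Set Z} {N : Z → ℕ} {x : (List Z ⊕ Z) → Bool} {α : Z} :
    gg B J N x (.inr α) ≠ 0 ↔
      α ∈ J ∧ x (.inr α) = true ∧ ∀ n < N α, x (.inl (pre B α n)) = false := by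
  simp only [gg]
  split_ifs with h
  · rw [mul_ne_zero_iff, Finset.prod_ne_zero_iff]
    have e1 : psi (x (.inr α)) ≠ 0 ↔ x (.inr α) = true := by
      simp only [psi]; split_ifs with h' <;> simp [h']
    have e2 : ∀ s : List Z, (1 - psi (x (.inl s)) ≠ 0) ↔ x (.inl s) = false := by
      intro s
      simp only [psi]; split_ifs with h' <;> simp [h']
    rw [e1]
    constructor
    · rintro ⟨h1, h2⟩
      exact ⟨h, h1, fun n hn => (e2 _).1 (h2 n (Finset.mem_range.2 hn))⟩
    · rintro ⟨-, h1, h2⟩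
      exact ⟨h1, fun n hn => (e2 _).2 (h2 n (Finset.mem_range.1 hn))⟩
  · simp [h]

theorem gg_val {J : Set Z} {N : Z → ℕ} {x : (List Z ⊕ Z) → Bool} (j : List Z ⊕ Z) :
    gg B J N x j = 0 ∨ gg B J N x j = 1 := by
  have hp : ∀ b, psi b = 0 ∨ psi b = 1 := by
    intro b; cases b <;> simp [psi]
  rcases j with s | α
  · exact hp _
  · by_cases h : gg B J N x (.inr α) = 0
    · exact Or.inl h
    · obtain ⟨h1, h2, h3⟩ := gg_inr.1 h
      right
      simp only [gg, h1, if_true, h2]
      have : ∏ n ∈ Finset.range (N α), (1 - psi (x (.inl (pre B α n)))) = 1 := by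
        refine Finset.prod_eq_one fun n hn => ?_
        rw [h3 n (Finset.mem_range.1 hn)]
        simp [psi]
      rw [this]
      simp [psi]

theorem continuous_gg (J : Set Z) (N : Z → ℕ) :
    Continuous (fun x : KK S B => gg B J N x.1) := by
  have hpsi : Continuous psi := continuous_of_discreteTopology
  have hc : ∀ j : List Z ⊕ Z, Continuous (fun x : KK S B => psi (x.1 j)) :=
    fun j => hpsi.comp (continuous_coord j)
  refine continuous_pi fun j => ?_
  rcases j with s | α
  · exact hc _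
  · by_cases h : α ∈ J
    · simp only [gg, h, if_true]
      exact (hc _).mul (continuous_finset_prod _ fun n _ => continuous_const.sub (hc _))
    · simp only [gg, h, if_false]
      exact continuous_const

/-- a set of points given by sequences in `δ` has a closure which is a Corson compact space, if
these sequences are free -/
theorem small_closure {δ : Set Z} (hfib : ∀ φ : ℕ → Z, {α ∈ S | B α = φ}.Countable)
    (hf : Free B {α ∈ S | ∀ i, B α i ∈ δ}) (A : Set (KK S B)) (hA : A ⊆ XB S B δ) :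
    ∃ (Γ : Type) (f : ↥(closure A) → (Γ → ℝ)),
      IsEmbedding f ∧ ∀ x, (Function.support (f x)).Countable := by
  classical
  obtain ⟨N, hN⟩ := hf
  have hcl : closure A ⊆ XB S B δ := closure_minimal hA (isClosed_XB δ)
  have hKK : CompactSpace (KK S B) := isCompact_iff_compactSpace.1 isClosed_KK.isCompact
  have hcA : CompactSpace (closure A) := isCompact_iff_compactSpace.1 isClosed_closure.isCompact
  refine ⟨List Z ⊕ Z, fun x => gg B {α ∈ S | ∀ i, B α i ∈ δ} N x.1.1, ?_, ?_⟩
  · have hcont : Continuous fun x : ↥(closure A) => gg B {α ∈ S | ∀ i, B α i ∈ δ} N x.1.1 :=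
      (continuous_gg _ _).comp continuous_subtype_val
    refine (hcont.isClosedEmbedding ?_).isEmbedding
    intro x y hxy
    have hxy' : gg B {α ∈ S | ∀ i, B α i ∈ δ} N x.1.1 =
      gg B {α ∈ S | ∀ i, B α i ∈ δ} N y.1.1 := hxy
    have h1 : ∀ s, x.1.1 (.inl s) = true ↔ y.1.1 (.inl s) = true := fun s => by
      rw [← gg_inl (B := B) (J := {α ∈ S | ∀ i, B α i ∈ δ}) (N := N), hxy', gg_inl]
    have h2 : ∀ α, (α ∈ {α ∈ S | ∀ i, B α i ∈ δ} ∧ x.1.1 (.inr α) = true ∧
        ∀ n < N α, x.1.1 (.inl (pre B α n)) = false) ↔ (α ∈ {α ∈ S | ∀ i, B α i ∈ δ} ∧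
        y.1.1 (.inr α) = true ∧ ∀ n < N α, y.1.1 (.inl (pre B α n)) = false) := fun α => by
      rw [← gg_inr, ← gg_inr, hxy']
    refine Subtype.ext (Subtype.ext ?_)
    -- the rôles of the two points
    have key : ∀ x y : ↥(closure A), (∀ s, x.1.1 (.inl s) = true ↔ y.1.1 (.inl s) = true) →
        (∀ α, (α ∈ {α ∈ S | ∀ i, B α i ∈ δ} ∧ x.1.1 (.inr α) = true ∧
          ∀ n < N α, x.1.1 (.inl (pre B α n)) = false) → (α ∈ {α ∈ S | ∀ i, B α i ∈ δ} ∧
          y.1.1 (.inr α) = true ∧ ∀ n < N α, y.1.1 (.inl (pre B α n)) = false)) →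
        x.1.1 ≠ inf → x.1.1 = y.1.1 := by
      intro x y h1 h2 hx
      rcases x.1.2 with ⟨s, hs⟩ | ⟨α, hα, hs⟩ | hs
      · have h3 : x.1.1 (.inl s) = true := by rw [hs]; exact iso_inl.2 rfl
        have h4 := (h1 s).1 h3
        rw [hs, mem_of_inl y.1.2 h4]
      · have h3 := (lim_mem_XB hα x.1 hs).1 (hcl x.2)
        have h4 := h2 α ⟨⟨hα, h3⟩, by rw [hs]; exact lim_inr.2 ⟨hα, rfl⟩,
          fun n _ => by rw [hs]; rfl⟩
        rcases (mem_of_inr y.1.2 h4.2.1).2 with ⟨n, hn⟩ | hn
        · have h5 : y.1.1 (.inl (pre B α n)) = true := by rw [hn]; exact iso_inl.2 rfl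
          have h6 := (h1 _).2 h5
          rw [hs, lim_inl] at h6
          exact absurd h6 (by simp)
        · rw [hs, hn]
      · exact absurd hs hx
    by_cases hx : x.1.1 = inf
    · by_cases hy : y.1.1 = inf
      · rw [hx, hy]
      · exact (key y x (fun s => (h1 s).symm) (fun α => (h2 α).2) hy).symm
    · exact key x y h1 (fun α => (h2 α).1) hx
  · intro x
    rcases x.1.2 with ⟨s, hs⟩ | ⟨α, hα, hs⟩ | hs
    · refine Set.Countable.mono ?_ (((countable_singleton s).image Sum.inl).union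
        ((hN s.toFinset).image Sum.inr))
      intro j hj
      rw [Function.mem_support] at hj
      rcases j with s' | α
      · left
        have h1 := gg_inl.1 hj
        rw [hs, iso_inl] at h1
        exact ⟨s', h1, rfl⟩
      · right
        obtain ⟨h1, h2, h3⟩ := gg_inr.1 hj
        rw [hs] at h2
        obtain ⟨-, n, hn⟩ := iso_inr.1 h2
        refine ⟨α, ⟨h1, fun i hi => ?_⟩, rfl⟩
        rw [List.mem_toFinset, hn, mem_pre]
        refine ⟨i, ?_, rfl⟩
        by_contra hc
        have h4 : n < N α := lt_of_le_of_lt (not_lt.1 hc) hi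
        have h5 := h3 n h4
        rw [hs, hn, iso_inl.2 rfl] at h5
        exact absurd h5 (by simp)
    · refine Set.Countable.mono ?_ ((hfib (B α)).image Sum.inr)
      intro j hj
      rw [Function.mem_support] at hj
      rcases j with s' | β
      · have h1 := gg_inl.1 hj
        rw [hs, lim_inl] at h1
        exact absurd h1 (by simp)
      · obtain ⟨h1, h2, h3⟩ := gg_inr.1 hj
        rw [hs] at h2
        exact ⟨β, lim_inr.1 h2, rfl⟩
    · refine Set.Countable.mono ?_ (countable_empty (α := List Z ⊕ Z))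
      intro j hj
      rw [Function.mem_support] at hj
      rcases j with s' | β
      · have h1 := gg_inl.1 hj
        rw [hs] at h1
        exact absurd h1 (by simp [inf])
      · obtain ⟨h1, h2, h3⟩ := gg_inr.1 hj
        rw [hs] at h2
        exact absurd h2 (by simp [inf])

end Small

end Pool.Agent.K9h78.CC
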