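import Mathlib

/-!
# The compact space of a family of countable sequences

`S` is a set of indices and `B α` is a sequence for each index `α ∈ S`. The space has an isolated
point for each finite sequence `s`; the points of the initial segments of `B α` converge to a point
`lim α`, and there is one more point `inf`.
-/

set_option autoImplicit false

namespace Pool.Agent.K9h78.CC

open Cardinal Set Topology

section Space

variable {Z : Type} (S : Set Z) (B : Z → ℕ → Z)

/-- initial segments of the sequences -/
def pre (α : Z) (n : ℕ) : List Z := (List.range n).map (B α)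

open Classical in
/-- the isolated points -/
noncomputable def iso (s : List Z) : (List Z ⊕ Z) → Bool
  | .inl s' => decide (s' = s)
  | .inr α => decide (α ∈ S ∧ ∃ n, s = pre B α n)

open Classical in
/-- the limits of the sequences -/
noncomputable def lim (α : Z) : (List Z ⊕ Z) → Bool
  | .inl _ => false
  | .inr β => decide (β ∈ S ∧ B β = B α)

/-- the last point -/
def inf : (List Z ⊕ Z) → Bool := fun _ => false

/-- the set of all points -/
def KK : Set ((List Z ⊕ Z) → Bool) :=
  {x | (∃ s, x = iso S B s) ∨ (∃ α ∈ S, x = lim S B α) ∨ x = inf}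

variable {S B}

theorem length_pre (α : Z) (n : ℕ) : (pre B α n).length = n := by simp [pre]

theorem mem_pre {α : Z} {n : ℕ} {x : Z} : x ∈ pre B α n ↔ ∃ i < n, B α i = x := by
  simp [pre]

theorem pre_inj {α β : Z} {n m : ℕ} (h : pre B α n = pre B β m) :
    n = m ∧ ∀ i < n, B α i = B β i := by
  have h1 : n = m := by
    have := congrArg List.length h
    rwa [length_pre, length_pre] at this
  subst h1
  refine ⟨rfl, fun i hi => ?_⟩
  have h2 := congrArg (fun l => l[i]?) h
  simpa [pre, hi] using h2

theorem pre_congr {α β : Z} (h : B α = B β) (n : ℕ) : pre B α n = pre B β n := by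
  simp [pre, h]

theorem iso_inl {s s' : List Z} : iso S B s (.inl s') = true ↔ s' = s := by simp [iso]

theorem iso_inr {s : List Z} {α : Z} :
    iso S B s (.inr α) = true ↔ α ∈ S ∧ ∃ n, s = pre B α n := by simp [iso]

theorem lim_inl {α : Z} {s : List Z} : lim S B α (.inl s) = false := rfl

theorem lim_inr {α β : Z} : lim S B α (.inr β) = true ↔ β ∈ S ∧ B β = B α := by simp [lim]

theorem isOpen_coord (j : List Z ⊕ Z) (b : Bool) :
    IsOpen {x : (List Z ⊕ Z) → Bool | x j = b} := by
  have h : Continuous (fun x : (List Z ⊕ Z) → Bool => x j) := continuous_apply j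
  exact (isOpen_discrete ({b} : Set Bool)).preimage h

theorem isClosed_coord (j : List Z ⊕ Z) (b : Bool) :
    IsClosed {x : (List Z ⊕ Z) → Bool | x j = b} := by
  have h : Continuous (fun x : (List Z ⊕ Z) → Bool => x j) := continuous_apply j
  exact (isClosed_discrete ({b} : Set Bool)).preimage h

theorem mem_of_inl {x : (List Z ⊕ Z) → Bool} (hx : x ∈ KK S B) {s : List Z}
    (h : x (.inl s) = true) : x = iso S B s := by
  rcases hx with ⟨s', rfl⟩ | ⟨α, _, rfl⟩ | rfl
  · rw [iso_inl.1 h]
  · simp [lim] at h
  · simp [inf] at h

theorem mem_of_inr {x : (List Z ⊕ Z) → Bool} (hx : x ∈ KK S B) {α : Z}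
    (h : x (.inr α) = true) :
    α ∈ S ∧ ((∃ n, x = iso S B (pre B α n)) ∨ x = lim S B α) := by
  rcases hx with ⟨s', rfl⟩ | ⟨β, _, rfl⟩ | rfl
  · obtain ⟨h1, n, rfl⟩ := iso_inr.1 h
    exact ⟨h1, Or.inl ⟨n, rfl⟩⟩
  · obtain ⟨h1, h2⟩ := lim_inr.1 h
    refine ⟨h1, Or.inr ?_⟩
    funext j
    rcases j with s | γ
    · rfl
    · simp [lim, h2]
  · simp [inf] at h

theorem isClosed_KK : IsClosed (KK S B) := by
  rw [← closure_subset_iff_isClosed]
  intro x hx
  have key : ∀ U : Set ((List Z ⊕ Z) → Bool), IsOpen U → x ∈ U → ∀ F : Set ((List Z ⊕ Z) → Bool),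
      F.Finite → U ∩ KK S B ⊆ F → x ∈ F := by
    intro U hU hxU F hF hUF
    have h1 : x ∈ closure (U ∩ KK S B) := hU.inter_closure ⟨hxU, hx⟩
    have h2 := closure_mono hUF h1
    rwa [hF.isClosed.closure_eq] at h2
  by_cases h1 : ∃ s, x (.inl s) = true
  · obtain ⟨s, hs⟩ := h1
    have := key {y | y (.inl s) = true} (isOpen_coord _ _) hs {iso S B s} (finite_singleton _)
      (fun y hy => mem_of_inl hy.2 hy.1)
    exact Or.inl ⟨s, this⟩
  push Not at h1
  have h1' : ∀ s, x (.inl s) = false := fun s => by simpa using h1 s
  by_cases h2 : ∃ α, x (.inr α) = true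
  · obtain ⟨α, hα⟩ := h2
    have hαS : α ∈ S := by
      by_contra hc
      have := key {y | y (.inr α) = true} (isOpen_coord _ _) hα ∅ finite_empty
        (fun y hy => hc (mem_of_inr hy.2 hy.1).1)
      exact this
    refine Or.inr (Or.inl ⟨α, hαS, ?_⟩)
    funext j
    rcases j with s | β
    · rw [h1' s]; rfl
    · by_cases hβ : β ∈ S ∧ B β = B α
      · have h3 : x ∈ {y : (List Z ⊕ Z) → Bool | y (.inr β) = y (.inr α)} := by
          have hcl : IsClosed {y : (List Z ⊕ Z) → Bool | y (.inr β) = y (.inr α)} :=
            isClosed_eq (continuous_apply _) (continuous_apply _)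
          refine closure_minimal ?_ hcl hx
          intro y hy
          change y (.inr β) = y (.inr α)
          have e : ∀ γ γ' : Z, γ ∈ S → γ' ∈ S → B γ = B γ' → y (.inr γ) = true →
              y (.inr γ') = true := by
            intro γ γ' hγ hγ' he hy1
            rcases (mem_of_inr hy hy1).2 with ⟨n, rfl⟩ | rfl
            · exact iso_inr.2 ⟨hγ', n, pre_congr he n⟩
            · exact lim_inr.2 ⟨hγ', he.symm⟩
          rcases hb : y (.inr α) with _ | _
          · rcases hb' : y (.inr β) with _ | _
            · rfl
            · rw [e β α hβ.1 hαS hβ.2 hb'] at hb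
              exact absurd hb (by simp)
          · exact e α β hαS hβ.1 hβ.2.symm hb
        have h4 : x (.inr β) = x (.inr α) := h3
        rw [h4, hα]
        exact (lim_inr.2 hβ).symm
      · have h3 : lim S B α (.inr β) = false := by
          rcases hb : lim S B α (.inr β) with _ | _
          · rfl
          · exact absurd (lim_inr.1 hb) hβ
        rw [h3]
        by_contra hc
        have hc' : x (.inr β) = true := by simpa using hc
        have hβS : β ∈ S := by
          by_contra hc2
          exact key {y | y (.inr β) = true} (isOpen_coord _ _) hc' ∅ finite_empty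
            (fun y hy => hc2 (mem_of_inr hy.2 hy.1).1)
        have hne : B β ≠ B α := fun h => hβ ⟨hβS, h⟩
        obtain ⟨k, hk⟩ : ∃ k, B β k ≠ B α k := by
          by_contra hcon
          push Not at hcon
          exact hne (funext hcon)
        have h5 := key ({y | y (.inr α) = true} ∩ {y | y (.inr β) = true})
          ((isOpen_coord _ _).inter (isOpen_coord _ _)) ⟨hα, hc'⟩
          ((fun n => iso S B (pre B α n)) '' (Set.Iic k)) ((finite_Iic k).image _) (by
            rintro y ⟨⟨hy1, hy2⟩, hy⟩
            have hy1' : y (.inr α) = true := hy1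
            have hy2' : y (.inr β) = true := hy2
            rcases (mem_of_inr hy hy1').2 with ⟨n, rfl⟩ | rfl
            · obtain ⟨-, m, hm⟩ := iso_inr.1 hy2'
              obtain ⟨rfl, h6⟩ := pre_inj hm
              refine ⟨n, ?_, rfl⟩
              by_contra hcon
              have : k < n := not_le.1 hcon
              exact hk (h6 k this).symm
            · exact absurd (lim_inr.1 hy2').2 hne)
        obtain ⟨n, -, hn⟩ := h5
        have h6 : x (.inl (pre B α n)) = true := by
          rw [← hn]; exact iso_inl.2 rfl
        rw [h1' _] at h6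
        exact absurd h6 (by simp)
  · push Not at h2
    refine Or.inr (Or.inr ?_)
    funext j
    rcases j with s | α
    · exact h1' s
    · simpa [inf] using h2 α

end Space

end Pool.Agent.K9h78.CC
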