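import Pool.Agent.K9h78.CC.Chain
import Pool.Agent.K9h78.CC.Corson

/-!
# From `κ` to `κ⁺`
-/

set_option autoImplicit false

namespace Pool.Agent.K9h78.CC

open Cardinal Set Topology
open Pool.Agent.Helper102.CorsonTools

theorem Corson.corsonOn {X : Type} [TopologicalSpace X] (h : Corson X) :
    CorsonOn (univ : Set X) := by
  obtain ⟨Γ, e, he, hc⟩ := h
  let E : Γ → C(X, ℝ) := fun γ => ⟨fun x => e x γ, (continuous_apply γ).comp he.continuous⟩
  refine ⟨range E, fun x _ => ?_, fun x _ y _ hxy => he.injective ?_⟩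
  · refine ((hc x).image E).mono ?_
    rintro f ⟨⟨γ, rfl⟩, hγ⟩
    exact ⟨γ, hγ, rfl⟩
  · funext γ
    exact hxy (E γ) ⟨γ, rfl⟩

theorem CorsonOn.corson {X : Type} [TopologicalSpace X] [CompactSpace X]
    (h : CorsonOn (univ : Set X)) : Corson X := by
  obtain ⟨Γ, e, he, hc⟩ := embedding_of_corson h
  exact ⟨Γ, e, he, fun x => hc x⟩

theorem Corson.of_embedding {X Y : Type} [TopologicalSpace X] [TopologicalSpace Y] {i : Y → X}
    (hi : IsEmbedding i) (h : Corson X) : Corson Y := by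
  obtain ⟨Γ, e, he, hc⟩ := h
  exact ⟨Γ, e ∘ i, he.comp hi, fun y => hc (i y)⟩

theorem corsonOn_closure {X : Type} [TopologicalSpace X] [CompactSpace X] [T2Space X] {A : Set X}
    (h : Corson (closure A)) : CorsonOn (closure A) :=
  CorsonOn.of_subtype isClosed_closure h.corsonOn

/-- the hypothesis is inherited by closed subspaces -/
theorem SmallClosuresCorson.subtype {X : Type} [TopologicalSpace X] (h : SmallClosuresCorson X)
    {Y : Set X} : SmallClosuresCorson Y := by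
  intro A hA
  have h1 := h (Subtype.val '' A) (mk_image_le.trans hA)
  have h2 : ∀ y : ↥(closure A), y.1.1 ∈ closure (Subtype.val '' A) := fun y =>
    (image_closure_subset_closure_image continuous_subtype_val) ⟨y.1, y.2, rfl⟩
  refine Corson.of_embedding (i := fun y : ↥(closure A) => (⟨y.1.1, h2 y⟩ :
    ↥(closure (Subtype.val '' A)))) ?_ h1
  have h3 : IsEmbedding (fun y : ↥(closure A) => y.1.1) :=
    IsEmbedding.subtypeVal.comp IsEmbedding.subtypeVal
  exact h3.codRestrict _ h2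

/-- Every compact Hausdorff space with a dense subset of size at most `κ` is Corson compact, if the
closures of its subsets of size at most `𝔠` are. -/
def UpTo (κ : Cardinal.{0}) : Prop :=
  ∀ (X : Type) [TopologicalSpace X] [CompactSpace X] [T2Space X] (A : Set X),
    Dense A → #A ≤ κ → SmallClosuresCorson X → Corson X

theorem UpTo.corsonOn_closure' {κ : Cardinal.{0}} (hκ : UpTo κ) {X : Type} [TopologicalSpace X]
    [CompactSpace X] [T2Space X] (h : SmallClosuresCorson X) {J : Set X} (hJ : #J ≤ κ) :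
    CorsonOn (closure J) := by
  apply corsonOn_closure
  have hcomp : CompactSpace (closure J) :=
    isCompact_iff_compactSpace.1 isClosed_closure.isCompact
  refine hκ (closure J) (Subtype.val ⁻¹' J) ?_ ?_ h.subtype
  · intro y
    rw [Topology.IsInducing.subtypeVal.closure_eq_preimage_closure_image]
    rw [Subtype.image_preimage_coe, inter_eq_right.2 subset_closure]
    exact y.2
  · refine (mk_preimage_of_injective _ _ Subtype.val_injective).trans hJ

theorem exists_surj {κ : Cardinal.{0}} {α : Type} {s : Set α} (hs : s.Nonempty)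
    (h : #s ≤ Order.succ κ) : ∃ f : ZZ κ → α, range f = s := by
  rw [← ZZ.mk (κ := κ)] at h
  obtain ⟨φ⟩ := (Cardinal.le_def _ _).1 h
  have hne : Nonempty s := hs.to_subtype
  refine ⟨fun z => (Function.invFun φ z).1, ?_⟩
  ext a
  constructor
  · rintro ⟨z, rfl⟩
    exact (Function.invFun φ z).2
  · intro ha
    exact ⟨φ ⟨a, ha⟩, congrArg Subtype.val (Function.leftInverse_invFun φ.injective ⟨a, ha⟩)⟩

theorem ctight {X : Type} [TopologicalSpace X] [CompactSpace X] [T2Space X]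
    (h : SmallClosuresCorson X) : CTight X :=
  ctight_of_small fun A hA => corsonOn_closure (h A (hA.trans aleph_one_le_continuum))

theorem upTo_succ {κ : Cardinal.{0}} (hκ : 𝔠 ≤ κ) (hu : UpTo κ) (hR : ReflectsAt κ) :
    UpTo (Order.succ κ) := by
  classical
  intro X _ _ _ A hA hAκ hX
  have hκ0 : ℵ₀ ≤ κ := aleph0_le_continuum.trans hκ
  rcases isEmpty_or_nonempty X with hemp | hne
  · refine CorsonOn.corson ⟨∅, fun x _ => ?_, fun x _ => hemp.elim x⟩
    exact hemp.elim x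
  have hct := ctight hX
  obtain ⟨x, hx⟩ := exists_surj (hA.nonempty) hAκ
  have hxd : Dense (range x) := by rw [hx]; exact hA
  have hcor : ∀ δ, CorsonOn (closure (x '' Iio δ)) := fun δ =>
    hu.corsonOn_closure' hX (mk_image_le.trans (ZZ.mk_Iio δ))
  choose F hF1 hF2 using hcor
  have hG : #(⋃ δ : ZZ κ, {f | f ∈ F δ ∧ ∃ b ∈ x '' Iio δ, f b ≠ 0} : Set C(X, ℝ)) ≤
      Order.succ κ := by
    refine (mk_iUnion_le _).trans ?_
    have h1 : (⨆ δ : ZZ κ, #({f | f ∈ F δ ∧ ∃ b ∈ x '' Iio δ, f b ≠ 0} : Set C(X, ℝ))) ≤ κ := by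
      refine ciSup_le' fun δ => ?_
      have h2 : ({f | f ∈ F δ ∧ ∃ b ∈ x '' Iio δ, f b ≠ 0} : Set C(X, ℝ)) ⊆
          ⋃ b ∈ x '' Iio δ, {f | f ∈ F δ ∧ f b ≠ 0} := by
        rintro f ⟨hf, b, hb, hne⟩
        exact mem_biUnion hb ⟨hf, hne⟩
      refine (mk_le_mk_of_subset h2).trans (mk_biUnion_le_of hκ0
        (mk_image_le.trans (ZZ.mk_Iio δ)) fun b hb => hF1 δ b (subset_closure hb))
    refine (mul_le_mul' (ZZ.mk).le (h1.trans (Order.le_succ κ))).trans ?_
    exact (mul_eq_self (hκ0.trans (Order.le_succ κ))).le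
  obtain ⟨g, hg⟩ := exists_surj (κ := κ)
    (s := {0} ∪ (⋃ δ : ZZ κ, {f | f ∈ F δ ∧ ∃ b ∈ x '' Iio δ, f b ≠ 0} : Set C(X, ℝ)))
    ⟨0, Or.inl rfl⟩ (by
      refine (mk_union_le _ _).trans (add_le_of_le (hκ0.trans (Order.le_succ κ)) ?_ hG)
      rw [mk_singleton]
      exact one_le_aleph0.trans (hκ0.trans (Order.le_succ κ)))
  have hloc : ∀ y : X, ∃ δ, y ∈ closure (x '' Iio δ) := by
    intro y
    obtain ⟨C, hC, hCc, hy⟩ := hct (range x) y (hxd y)
    have hZ := ZZ.nonempty hκ0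
    choose! ix hix using fun c (hc : c ∈ C) => hC hc
    obtain ⟨δ, hδ⟩ := ZZ.exists_bound_countable hκ0 (ix '' C) (hCc.image _)
    refine ⟨δ, closure_mono ?_ hy⟩
    intro c hc
    exact ⟨ix c, hδ _ ⟨c, hc, rfl⟩, hix c hc⟩
  have hgs : SepOn univ (range g) := by
    intro y _ z _ hyz
    obtain ⟨δ, hδ⟩ := hloc y
    obtain ⟨δ', hδ'⟩ := hloc z
    refine sepOn_of_corson (hF2 (max δ δ')) y ?_ z ?_ fun f hf => hyz f ?_
    · exact closure_mono (image_mono (Iio_subset_Iio (le_max_left _ _))) hδ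
    · exact closure_mono (image_mono (Iio_subset_Iio (le_max_right _ _))) hδ'
    · rw [hg]
      exact Or.inr (mem_iUnion.2 ⟨_, hf⟩)
  refine CorsonOn.corson (corson_of_chain hκ0 hct x g hxd hgs (fun δ => ⟨F δ, hF1 δ, hF2 δ⟩) ?_)
  intro S B hS hB
  obtain ⟨J, hJS, hJ, hfree⟩ := hR S B hS hB
  obtain ⟨δ, hδ⟩ := ZZ.exists_bound hκ0 J (hJ.trans hκ)
  refine ⟨δ, fun hf => hfree (Free.mono ?_ hf)⟩
  intro α hα
  exact ⟨hJS hα, hδ α hα⟩

end Pool.Agent.K9h78.CC
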