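import Pool.Agent.Helper102.CorsonTools

/-!
# Countable tightness
-/

set_option autoImplicit false

namespace Pool.Agent.K9h78.CC

open Cardinal Set Topology
open Pool.Agent.Helper102.CorsonTools

variable {X : Type} [TopologicalSpace X]

/-- variant of `lemCO` with a family which is point-countable on the closure of `A` -/
theorem lemCO' [CompactSpace X] {A : Set X} {F : Set C(X, ℝ)} (hF : PCon (closure A) F) {x : X}
    (hx : x ∈ closure A) :
    ∃ C ⊆ A, C.Countable ∧ ∃ x' ∈ closure C, ∀ f ∈ F, f x' = f x := by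
  classical
  have step : ∀ M : {M : Set C(X, ℝ) // M.Countable}, ∃ C : Set X, C ⊆ A ∧ C.Countable ∧
      ∃ x' ∈ closure C, ∀ f ∈ M.1, f x' = f x := by
    intro M
    obtain ⟨C, hCA, hC, hD⟩ := lemA A M.1
    refine ⟨C, hCA, ?_, hD x hx⟩
    have : #C ≤ ℵ₀ := hC.trans (max_le (Cardinal.le_aleph0_iff_set_countable.2 M.2) le_rfl)
    exact Cardinal.le_aleph0_iff_set_countable.1 this
  choose C hCA hCc hCx using step
  let nxt : {M : Set C(X, ℝ) // M.Countable} → {M : Set C(X, ℝ) // M.Countable} := fun M =>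
    ⟨M.1 ∪ ⋃ c ∈ C M, {f | f ∈ F ∧ f c ≠ 0},
      M.2.union ((hCc M).biUnion fun c hc => hF c (subset_closure (hCA M hc)))⟩
  let M : ℕ → {M : Set C(X, ℝ) // M.Countable} := fun n =>
    Nat.rec ⟨{f | f ∈ F ∧ f x ≠ 0}, hF x hx⟩ (fun _ M => nxt M) n
  have hMs : ∀ n, M (n+1) = nxt (M n) := fun n => rfl
  have hMmono : ∀ n, (M n).1 ⊆ (M (n+1)).1 := by
    intro n; rw [hMs]; exact subset_union_left
  have hMmono' : Monotone (fun n => (M n).1) := monotone_nat_of_le_succ hMmono
  refine ⟨⋃ n, C (M n), iUnion_subset fun n => hCA _, countable_iUnion fun n => hCc _, ?_⟩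
  let T : ℕ → Set X := fun n => closure (⋃ n, C (M n)) ∩ {y | ∀ f ∈ (M n).1, f y = f x}
  have hTclosed : ∀ j, IsClosed (T j) := by
    intro j
    apply isClosed_closure.inter
    have : {y | ∀ f ∈ (M j).1, f y = f x} = ⋂ f ∈ (M j).1, {y | f y = f x} := by
      ext y; simp
    rw [this]
    apply isClosed_biInter
    intro f _
    exact isClosed_eq f.continuous continuous_const
  have hne : (⋂ j, T j).Nonempty := by
    apply IsCompact.nonempty_iInter_of_directed_nonempty_isCompact_isClosed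
    · intro i j
      refine ⟨max i j, ?_, ?_⟩
      · intro y hy; exact ⟨hy.1, fun f hf => hy.2 f (hMmono' (le_max_left i j) hf)⟩
      · intro y hy; exact ⟨hy.1, fun f hf => hy.2 f (hMmono' (le_max_right i j) hf)⟩
    · intro i
      obtain ⟨x', hx', hf⟩ := hCx (M i)
      exact ⟨x', closure_mono (subset_iUnion (fun n => C (M n)) i) hx', hf⟩
    · intro j; exact (hTclosed j).isCompact
    · exact hTclosed
  obtain ⟨x', hx'⟩ := hne
  rw [mem_iInter] at hx'
  refine ⟨x', (hx' 0).1, ?_⟩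
  intro f hf
  by_cases hfM : ∃ n, f ∈ (M n).1
  · obtain ⟨n, hn⟩ := hfM
    exact (hx' n).2 f hn
  · push Not at hfM
    have h0 : f x = 0 := by
      by_contra hne
      exact hfM 0 ⟨hf, hne⟩
    have h1 : ∀ c ∈ ⋃ n, C (M n), f c = 0 := by
      intro c hc
      obtain ⟨n, hn⟩ := mem_iUnion.1 hc
      by_contra hne
      apply hfM (n+1)
      rw [hMs]
      right
      simp only [mem_iUnion]
      exact ⟨c, hn, hf, hne⟩
    rw [h0]
    exact vanish_closure h1 x' (hx' 0).1

theorem tight_of_corsonOn [CompactSpace X] {A : Set X} (h : CorsonOn (closure A)) {x : X}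
    (hx : x ∈ closure A) : ∃ C ⊆ A, C.Countable ∧ x ∈ closure C := by
  obtain ⟨F, hF, hs⟩ := h
  obtain ⟨C, hCA, hC, x', hx', hf⟩ := lemCO' hF hx
  have h1 := hs x' (closure_mono hCA hx') x hx hf
  rw [← h1]
  exact ⟨C, hCA, hC, hx'⟩

/-- if the closures of the sets of size at most `ℵ₁` are Corson compact, then countably closed sets
are closed -/
theorem isClosed_of_small [CompactSpace X] [T2Space X]
    (h : ∀ A : Set X, #A ≤ ℵ₁ → CorsonOn (closure A)) {A : Set X}
    (hA : ∀ C ⊆ A, C.Countable → closure C ⊆ A) : IsClosed A := by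
  classical
  rw [← closure_subset_iff_isClosed]
  intro p hp
  by_contra hpA
  -- the functions separating `p` from the closures of the countable subsets
  have hphi : ∀ C : Set X, ∃ f : C(X, ℝ), C ⊆ A → C.Countable →
      f p = 0 ∧ ∀ c ∈ closure C, f c = 1 := by
    intro C
    by_cases hC : C ⊆ A ∧ C.Countable
    · have h1 : Disjoint ({p} : Set X) (closure C) := by
        rw [Set.disjoint_singleton_left]
        exact fun h2 => hpA (hA C hC.1 hC.2 h2)
      obtain ⟨f, hf1, hf2, -⟩ := exists_continuous_zero_one_of_isClosed isClosed_singleton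
        isClosed_closure h1
      exact ⟨f, fun _ _ => ⟨hf1 rfl, fun c hc => hf2 hc⟩⟩
    · exact ⟨0, fun h1 h2 => absurd ⟨h1, h2⟩ hC⟩
  choose φ hφ using hphi
  have hpick : ∀ M : Set C(X, ℝ), ∃ y : X, M.Countable → y ∈ A ∧ ∀ f ∈ M, f y = f p := by
    intro M
    by_cases hM : M.Countable
    · obtain ⟨C, hCA, hC, hD⟩ := lemA A M
      have hC' : C.Countable := Cardinal.le_aleph0_iff_set_countable.1
        (hC.trans (max_le (Cardinal.le_aleph0_iff_set_countable.2 hM) le_rfl))
      obtain ⟨y, hy, hf⟩ := hD p hp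
      exact ⟨y, fun _ => ⟨hA C hCA hC' hy, hf⟩⟩
    · exact ⟨p, fun h1 => absurd h1 hM⟩
  choose pick hpick using hpick
  let W := (ℵ₁ : Cardinal.{0}).ord.ToType
  have hW : #W = ℵ₁ := Cardinal.mk_ord_toType _
  have hIio : ∀ β : W, (Iio β).Countable := by
    intro β
    have h1 : #(Iio β) < ℵ₁ := by
      have := Cardinal.mk_Iio_lt β (by simp [W])
      rwa [hW] at this
    exact Cardinal.le_aleph0_iff_set_countable.1 (Order.lt_succ_iff.1 (h1.trans_eq succ_aleph0.symm))
  have hIic : ∀ β : W, (Iic β).Countable := by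
    intro β
    have : Iic β ⊆ Iio β ∪ {β} := by
      intro γ hγ
      rcases lt_or_eq_of_le (show γ ≤ β from hγ) with h1 | h1
      · exact Or.inl h1
      · exact Or.inr h1
    exact ((hIio β).union (countable_singleton β)).mono this
  have hunc : ¬ (univ : Set W).Countable := by
    rw [← Cardinal.le_aleph0_iff_set_countable, Cardinal.mk_univ, hW, not_le]
    exact aleph0_lt_aleph_one
  have hbd : ∀ C : Set W, C.Countable → ∃ β, ∀ γ ∈ C, γ ≤ β := by
    intro C hC
    by_contra hcon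
    push Not at hcon
    refine hunc (((hC.biUnion fun γ _ => hIio γ)).mono ?_)
    intro β _
    obtain ⟨γ, hγ, hlt⟩ := hcon β
    exact mem_biUnion hγ hlt
  let step : ∀ α : W, (∀ β, β < α → X) → X := fun α ih =>
    pick {f | ∃ (β : W) (hβ : β < α),
      f = φ {y | ∃ (γ : W) (hγ : γ ≤ β), y = ih γ (lt_of_le_of_lt hγ hβ)}}
  let x : W → X := WellFounded.fix (wellFounded_lt (α := W)) step
  have hx : ∀ α, x α = pick {f | ∃ β < α, f = φ {y | ∃ γ ≤ β, y = x γ}} := by
    intro α
    have h1 : x α = step α fun β _ => x β := WellFounded.fix_eq (wellFounded_lt (α := W)) step α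
    rw [h1]
    simp only [step, exists_prop]
  have hcount : ∀ α : W, {f | ∃ β < α, f = φ {y | ∃ γ ≤ β, y = x γ}}.Countable := by
    intro α
    refine ((hIio α).image fun β => φ {y | ∃ γ ≤ β, y = x γ}).mono ?_
    rintro f ⟨β, hβ, rfl⟩
    exact ⟨β, hβ, rfl⟩
  have hxA : ∀ α, x α ∈ A := by
    intro α
    rw [hx α]
    exact (hpick _ (hcount α)).1
  have hxβ : ∀ β, {y | ∃ γ ≤ β, y = x γ} ⊆ A ∧ {y | ∃ γ ≤ β, y = x γ}.Countable := by
    intro β
    constructor
    · rintro y ⟨γ, -, rfl⟩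
      exact hxA γ
    · refine ((hIic β).image x).mono ?_
      rintro y ⟨γ, hγ, rfl⟩
      exact ⟨γ, hγ, rfl⟩
  have hx0 : ∀ α β, β < α → φ {y | ∃ γ ≤ β, y = x γ} (x α) = 0 := by
    intro α β hβ
    have h1 := (hpick _ (hcount α)).2 (φ {y | ∃ γ ≤ β, y = x γ}) ⟨β, hβ, rfl⟩
    rw [← hx α] at h1
    rw [h1]
    exact (hφ _ (hxβ β).1 (hxβ β).2).1
  have hnomax : ∀ β : W, ∃ α, β < α := by
    intro β
    by_contra hcon
    push Not at hcon
    exact hunc ((hIic β).mono fun γ _ => hcon γ)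
  have hWne : Nonempty W := by
    rw [← Cardinal.mk_ne_zero_iff, hW]
    exact (aleph0_pos.trans aleph0_lt_aleph_one).ne'
  -- a cluster point
  have hne : (⋂ β : W, closure (x '' Ioi β)).Nonempty := by
    apply IsCompact.nonempty_iInter_of_directed_nonempty_isCompact_isClosed
    · intro i j
      refine ⟨max i j, closure_mono (image_mono ?_), closure_mono (image_mono ?_)⟩
      · exact Ioi_subset_Ioi (le_max_left i j)
      · exact Ioi_subset_Ioi (le_max_right i j)
    · intro β
      obtain ⟨α, hα⟩ := hnomax β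
      exact ⟨x α, subset_closure ⟨α, hα, rfl⟩⟩
    · intro β; exact isClosed_closure.isCompact
    · intro β; exact isClosed_closure
  obtain ⟨q, hq⟩ := hne
  rw [mem_iInter] at hq
  have hL : CorsonOn (closure (range x)) := h _ (Cardinal.mk_range_le.trans hW.le)
  have hqL : q ∈ closure (range x) :=
    closure_mono (image_subset_range _ _) (hq (Classical.arbitrary W))
  obtain ⟨C, hCx, hC, hqC⟩ := tight_of_corsonOn hL hqL
  obtain ⟨E, hE, hEC⟩ : ∃ E : Set W, E.Countable ∧ C ⊆ x '' E := by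
    choose! ix hix using fun c (hc : c ∈ C) => hCx hc
    exact ⟨ix '' C, hC.image _, fun c hc => ⟨ix c, ⟨c, hc, rfl⟩, hix c hc⟩⟩
  obtain ⟨β, hβ⟩ := hbd E hE
  have h1 : C ⊆ {y | ∃ γ ≤ β, y = x γ} := by
    intro c hc
    obtain ⟨γ, hγ, rfl⟩ := hEC hc
    exact ⟨γ, hβ γ hγ, rfl⟩
  have h2 : φ {y | ∃ γ ≤ β, y = x γ} q = 1 :=
    (hφ _ (hxβ β).1 (hxβ β).2).2 q (closure_mono h1 hqC)
  have h3 : φ {y | ∃ γ ≤ β, y = x γ} q = 0 := by
    refine vanish_closure ?_ q (hq β)
    rintro _ ⟨α, hα, rfl⟩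
    exact hx0 α β hα
  rw [h2] at h3
  exact one_ne_zero h3

theorem ctight_of_small [CompactSpace X] [T2Space X]
    (h : ∀ A : Set X, #A ≤ ℵ₁ → CorsonOn (closure A)) : CTight X := by
  intro B x hx
  let A : Set X := {y | ∃ C ⊆ B, C.Countable ∧ y ∈ closure C}
  have hA : IsClosed A := by
    apply isClosed_of_small h
    intro C hCA hC y hy
    have hCA' : ∀ c ∈ C, ∃ D ⊆ B, D.Countable ∧ c ∈ closure D := fun c hc => hCA hc
    choose! D hDB hDc hD using hCA'
    refine ⟨⋃ c ∈ C, D c, ?_, hC.biUnion fun c hc => hDc c hc, ?_⟩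
    · simp only [iUnion_subset_iff]
      intro c hc; exact hDB c hc
    · have : C ⊆ closure (⋃ c ∈ C, D c) := by
        intro c hc
        exact closure_mono (subset_biUnion_of_mem (u := fun c => D c) hc) (hD c hc)
      exact closure_minimal this isClosed_closure hy
  have hBA : B ⊆ A := by
    intro b hb
    exact ⟨{b}, singleton_subset_iff.2 hb, countable_singleton b, subset_closure rfl⟩
  exact closure_minimal hBA hA hx

end Pool.Agent.K9h78.CC
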